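import Pool.Agent.Work.MP_499dc6_lc.FM.Defs

/-!
THEOREM FM: statements.  Every docstring is a complete proof.  No item waits for another one: what may
be used of other items is an explicit hypothesis, or a theorem of `FC/I_*.lean`, `SN/I_*.lean`, which are
all on main.

Idea: `F ≠ 0` is a multiple of `P = perm`, `P = A x + B` linear in the variable `x = x_(v0)`.  Up to a power
of `A`, `F = P ^ (e + 1) * (P c + h)` with `h ≠ 0` free of `x` (L1, L2), so `A^(N+1) ∂F = P^e (h' ∂P + P g)`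
(L3).  With `ε = δ ^ N` (S2) there is a point `ζ` over the power series in `δ`, near the section, with
`P(ζ) = T`, `T` of small positive order but smaller than `h'(ζ)`, so that the gradient of `F + ε R` at `ζ` is a
scalar times a vector whose constant term is the gradient of `P` at the point of the hypersurface `P = 0`.
The coordinate `x` becomes a new coordinate of the section, and `P - T` a new member of the family.
-/

open MvPolynomial
open scoped PowerSeries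

namespace Pool.Agent.Work.MP_499dc6_lc.FM

open Pool.Agent.Work.MP_499dc6_lc.SN
open Pool.Agent.Work.MP_499dc6_lc.FC

/-! ## L: polynomials, linear in one variable -/

/-- **LK** (EASY-MEDIUM).  Proof.  `aeval x h = aeval x (kill v0 h) = aeval (fun v => aeval x (if v = v0 then 0 else
X v)) h` (`comp_aeval_apply`), and the point is `fun v => if v = v0 then 0 else x v`; the same for `x'`. -/
def StLK : Prop := ∀ (O V A : Type) [CommRing O] [CommRing A] [Algebra O A] [DecidableEq V] (v0 : V)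
  (h : MvPolynomial V O), kill v0 h = h → ∀ x x' : V → A, (∀ v, v ≠ v0 → x v = x' v) →
  aeval x h = aeval x' h

/-- **LM** (EASY-MEDIUM).  Proof.  `map φ (kill v0 p) = kill v0 (map φ p)`: both sides are ring homomorphisms in
`p` (`MvPolynomial.induction_on`); `pderiv_map`. -/
def StLM : Prop := ∀ (O O' V : Type) [CommRing O] [CommRing O'] [DecidableEq V] (φ : O →+* O') (v0 : V),
  (∀ p : MvPolynomial V O, kill v0 (MvPolynomial.map φ p) = MvPolynomial.map φ (kill v0 p)) ∧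
  ∀ P : MvPolynomial V O, Lin v0 P → Lin v0 (MvPolynomial.map φ P)

/-- **LP** (MEDIUM).  The permanent is linear in every variable.
Proof.  `permP m k = ∑ σ, ∏ i, X (σ i, i)` (`Matrix.permanent`).  `pderiv` and `kill` are additive, so it is enough to
prove `Lin v0` for a product `∏ i, X (σ i, i)` of distinct variables (`Lin` is additive: both equations are).  With
`v0 = (a, b)`: if `σ b = a`, the product is `X v0 * ∏ i ≠ b, X (σ i, i)`, the second factor is fixed by `kill` and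
has `pderiv v0 = 0` (`pderiv_mul`, `pderiv_X`, or `Derivation.map_prod`..), and `kill` of the product is `0`.
Otherwise no factor is `X v0`: `pderiv v0` is `0` and `kill` fixes it. -/
def StLP : Prop := ∀ (k : Type) [Field k] (m : ℕ) (v0 : Fin m × Fin m), Lin v0 (H97.permP m k)

/-- **LT** (EASY-MEDIUM; hypothesis `StLK`).  Proof.  Write `P = A * X v0 + B` (`Lin`, only on one side of the
goal at a time: `conv` or `have := congrArg (aeval ..) hP.2`); the values of `A` and `B = kill v0 P` at the two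
points agree (`StLK`; `kill v0 (kill v0 P) = kill v0 P` by `comp_aeval_apply`). -/
def StLT : Prop := StLK → ∀ (O V A : Type) [CommRing O] [CommRing A] [Algebra O A] [DecidableEq V] (v0 : V)
  (P : MvPolynomial V O), Lin v0 P → ∀ (x : V → A) (d : A),
  aeval (fun v => x v + if v = v0 then d else 0) P = aeval x P + aeval x (pderiv v0 P) * d

/-- **L1** (EASY-MEDIUM).  Pseudo-division by `P = A * X v0 + B`.
Proof.  `MvPolynomial.induction_on` for `F`.  Constant: `N = 0`, `c = 0`, `h = C a`.  Sum: `N = N1 + N2`,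
`c = A ^ N2 * c1 + A ^ N1 * c2`, `h` the same.  `F * X v`, `v ≠ v0`: `c * X v`, `h * X v`.  `F * X v0`: `N + 1`,
`A ^ (N + 1) F X v0 = P c A X v0 + h (P - B)`, so `c' = c * A * X v0 + h`, `h' = - h * B`.  `kill` is an algebra
homomorphism with `kill A = A`, `kill B = B`. -/
def StL1 : Prop := ∀ (k V : Type) [Field k] [DecidableEq V] (v0 : V) (P : MvPolynomial V k), Lin v0 P →
  ∀ F : MvPolynomial V k, ∃ (N : ℕ) (c h : MvPolynomial V k), kill v0 h = h ∧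
    pderiv v0 P ^ N * F = P * c + h

/-- **L2** (MEDIUM; hypothesis `StL1`).  The order of vanishing.
Proof.  Strong induction on `degreeOf v0 F`.  `F = P * F1`, `F1 ≠ 0`.  `StL1` for `F1`: `A ^ N * F1 = P * c + h`.  If
`h ≠ 0`: `e = 0`.  If `h = 0`: `F2 := A ^ N * F1 = P * c` is not zero and divisible by `P`, and
`degreeOf v0 F2 = degreeOf v0 F1 < degreeOf v0 F`: `degreeOf_mul_eq` (`NoZeroDivisors.lean`), `degreeOf v0 A = 0`
(`kill A = A`; the support of `kill v0 A` does not contain `v0`; or: `X v0` does not occur, `vars`), `degreeOf v0 P ≥ 1`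
(otherwise `pderiv v0 P = 0`: `pderiv_eq_zero_of_notMem_vars`, `degreeOf_eq_zero_iff`).  By induction
`A ^ N' * F2 = P ^ (e + 1) * (P * c' + h')`, so `A ^ (N' + N) * F = P * (A ^ N' * F2) = P ^ (e + 2) * (..)`. -/
def StL2 : Prop := StL1 → ∀ (k V : Type) [Field k] [DecidableEq V] (v0 : V) (P : MvPolynomial V k), Lin v0 P →
  pderiv v0 P ≠ 0 → ∀ F : MvPolynomial V k, F ≠ 0 → P ∣ F →
  ∃ (N e : ℕ) (c h : MvPolynomial V k), kill v0 h = h ∧ h ≠ 0 ∧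
    pderiv v0 P ^ N * F = P ^ (e + 1) * (P * c + h)

/-- **L3** (EASY-MEDIUM).  The gradient.
Proof.  Put `A = pderiv v0 P`, `H1 = P * c + h`, `h' = (e + 1) * A * h`,
`g u = (e + 1) * A * c * pderiv u P + A * pderiv u H1 - N * H1 * pderiv u A`.  Multiply the derivative of
`A ^ N * F = P ^ (e + 1) * H1` by `A` (`Derivation.leibniz_pow`; `A * (N * A ^ (N - 1)) = N * A ^ N`, also for `N = 0`):
`A ^ (N + 1) ∂F = A * ∂(P ^ (e + 1) H1) - N * A ^ N * F * ∂A = P ^ e * ((e + 1) A H1 ∂P + P (A ∂H1 - N H1 ∂A))`.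
`h' ≠ 0` in characteristic zero. -/
def StL3 : Prop := ∀ (k V : Type) [Field k] [CharZero k] [DecidableEq V] (v0 : V) (P F : MvPolynomial V k),
  kill v0 (pderiv v0 P) = pderiv v0 P → pderiv v0 P ≠ 0 → ∀ (N e : ℕ) (c h : MvPolynomial V k),
  kill v0 h = h → h ≠ 0 → pderiv v0 P ^ N * F = P ^ (e + 1) * (P * c + h) →
  ∃ (h' : MvPolynomial V k) (g : V → MvPolynomial V k), kill v0 h' = h' ∧ h' ≠ 0 ∧
    ∀ u, pderiv v0 P ^ (N + 1) * pderiv u F = P ^ e * (h' * pderiv u P + P * g u)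

/-- **L4** (EASY-MEDIUM).  The change of the variable `v0` to the value of `P`.
Proof.  First for every `H` there are `d`, `H'` with the equation: `MvPolynomial.induction_on` for `H`.  Constant:
`d = 0`, `H' = C a`.  Sum: `d = d1 + d2`, `H' = A ^ d2 * H1' + A ^ d1 * H2'` (`sub A = A` where
`sub = aeval (fun v => if v = v0 then P else X v)`: `A = kill v0 A`, `comp_aeval_apply`).  `H * X v`, `v ≠ v0`:
`H' * X v`.  `H * X v0`: `d + 1`, `H' * (X v0 - B)`, because `sub (X v0 - B) = P - B = A * X v0`.  Then `H' ≠ 0`,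
because `A ^ d * H ≠ 0` (a domain). -/
def StL4 : Prop := ∀ (O V : Type) [CommRing O] [IsDomain O] [DecidableEq V] (v0 : V) (P : MvPolynomial V O),
  Lin v0 P → pderiv v0 P ≠ 0 → ∀ H : MvPolynomial V O, H ≠ 0 → ∃ (d : ℕ) (H' : MvPolynomial V O), H' ≠ 0 ∧
    aeval (fun v => if v = v0 then P else X v) H' = pderiv v0 P ^ d * H

/-! ## B, S: the base point, the ramification -/

/-- **B1** (EASY, compare `FC/I_B1.lean`).  Proof.  `MvPolynomial.funext_set` with the infinite sets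
`{c | X ^ L ∣ c - a v}`, which contain `a v + C c * X ^ L`, `c ∈ k`. -/
def StB1 : Prop := ∀ (k V : Type) [Field k] [Infinite k] [Finite V] (a : V → k⟦X⟧) (L : ℕ)
  (h : MvPolynomial V k⟦X⟧), h ≠ 0 →
  ∃ x0 : V → k⟦X⟧, (∀ v, PowerSeries.X ^ L ∣ x0 v - a v) ∧ eval x0 h ≠ 0

/-- **B2** (EASY-MEDIUM).  Proof.  `MvPolynomial.funext`: there is `y0` with `eval (X0 + y0) h ≠ 0` (take a
point `y1` with `eval y1 h ≠ 0`, `y0 = y1 - X0`).  Let
`p = aeval (fun v => Polynomial.C (X0 v) + Polynomial.X * Polynomial.C (y0 v)) h : Polynomial k`; `p.eval 1 =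
eval y1 h ≠ 0`, so `p ≠ 0`, and the power series of the statement is `(p : k⟦X⟧)` (`Polynomial.coeToPowerSeries.ringHom`,
injective `Polynomial.coe_injective`, `MvPolynomial.hom_eval₂` or induction on `h`). -/
def StB2 : Prop := ∀ (k V : Type) [Field k] [Infinite k] [Finite V] (X0 : V → k)
  (h : MvPolynomial V k), h ≠ 0 → ∃ y0 : V → k,
  eval (fun v => PowerSeries.C (X0 v) + PowerSeries.X * PowerSeries.C (y0 v))
    (MvPolynomial.map PowerSeries.C h) ≠ 0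

/-- **S2** (EASY-MEDIUM, compare `FC/I_A4.lean`).  Proof.  `ψ = (PowerSeries.expand N _).toRingHom`, injective
(`PowerSeries.coeff_expand_mul`), `ψ X = X ^ N` (`expand_X`), `ψ (C a) = C a` (`expand_C`).  Take the images under
`MvPolynomial.map ψ`: `BC_lev`, `BC_ev` (`SN/I_BC.lean`), `A4_rel` (`FC/I_A4.lean`), all for general ring
homomorphisms; `map ψ (H13.Pe F R) = map C F + C (X ^ N) * map ψ R` (`MvPolynomial.map_map`). -/
def StS2 : Prop := ∀ (k V : Type) [Field k] (N : ℕ) (_ : 1 ≤ N) (S t r : ℕ)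
  (lev : Fin S → ℕ) (F : MvPolynomial V k) (Q : Fin S → MvPolynomial (V ⊕ Fin S) k⟦X⟧)
  (_ : Lev t lev Q) (f : Fin S → MvPolynomial V k⟦X⟧) (_ : ∀ j, f j = ev X f (Q j))
  (s : Fin r → Fin S) (R : MvPolynomial V k⟦X⟧) (_ : Rel (fun i => f (s i)) (H13.Pe F R)),
  ∃ (Q' : Fin S → MvPolynomial (V ⊕ Fin S) k⟦X⟧) (f' : Fin S → MvPolynomial V k⟦X⟧)
    (R' : MvPolynomial V k⟦X⟧), Lev t lev Q' ∧ (∀ j, f' j = ev X f' (Q' j)) ∧
    Rel (fun i => f' (s i)) (MvPolynomial.map PowerSeries.C F + C (PowerSeries.X ^ N) * R')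

/-! ## P: the point -/

/-- **P1** (MEDIUM; hypotheses `StLK`, `StLM`).  The point `ζ` with `P(ζ) = T`, `T = x0 v0`.
Proof.  `v0 = dp.v0`, `A = pderiv v0 P`, `B = kill v0 P`, `ζ' = zh v0 x0 X1 θ 0`, `a = aeval ζ' (map C A)`,
`b = aeval ζ' (map C B)`.  By `StLK` (with `StLM`: `kill (map C A) = map C A`, and `kill (kill P) = kill P`) these are
also the values at `zh .. z` for every `z`.  Put `φ = algebraMap (TR k Ξ) (F0 k Ξ)`, injective.  The constant coefficient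
of `ζ' v` is `φ (xT v)` for `v ≠ v0` (`H13.xT_eq`, see `hpt` in `FC/I_E3.lean`), so by `H13.const_aeval` (the map of
`map C A` by the constant coefficient is `A`) and `StLK` the constant coefficients of `a`, `b` are
`φ (aeval xT A)`, `φ (aeval xT B)` (`aeval_algebraMap_apply`).  `u = aeval xT A` is a unit of `TR k Ξ`
(`H13.isUnit_of_const`, `H13.const_aeval_xT`, `dp.hv0`), so `a` is a unit; `κ = a⁻¹`,
`z = (algebraMap T - b) * κ`; `P = A * X v0 + B` gives `aeval (zh .. z) (map C P) = a * z + b = T`.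
`y v = xT v` for `v ≠ v0`, `y v0 = - (aeval xT B) * u⁻¹`: the constant coefficient of `z` is
`- φ (aeval xT B) / φ u` (the one of `T` is `0`).  `y v0 - xT v0 = - (aeval xT P) * u⁻¹`, divisible by `X ^ (D + 1)`
(`H13.xT_val`). -/
def StP1 : Prop := StLK → StLM → ∀ (k V Ξ Τ I : Type) [Field k] [Fintype V] [DecidableEq V] [Fintype Ξ]
  [Fintype Τ] [IsEmpty Τ] [Fintype I] (P : MvPolynomial V k) (dp : H97.Deep k V Ξ Τ I P),
  Lin dp.v0 P → ∀ x0 : V → k⟦X⟧, (∀ v, v ≠ dp.v0 → PowerSeries.constantCoeff (x0 v) = dp.X0 v) →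
  PowerSeries.constantCoeff (x0 dp.v0) = 0 →
  ∃ (z κ : (F0 k Ξ)⟦X⟧) (y : V → H13.TR k Ξ),
    aeval (zh dp.v0 x0 dp.X1 (th0 k) z) (MvPolynomial.map PowerSeries.C P) =
      algebraMap k⟦X⟧ (F0 k Ξ)⟦X⟧ (x0 dp.v0) ∧
    aeval (zh dp.v0 x0 dp.X1 (th0 k) z) (MvPolynomial.map PowerSeries.C (pderiv dp.v0 P)) * κ = 1 ∧
    (∀ v, PowerSeries.constantCoeff (zh dp.v0 x0 dp.X1 (th0 k) z v) =
      algebraMap (H13.TR k Ξ) (F0 k Ξ) (y v)) ∧
    ∀ v, PowerSeries.X ^ (dp.D + 1) ∣ y v - H13.xT dp v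

/-- **P3** (EASY).  The gradient of `F + ε R` at the point is a multiple of a vector with the right constant term.
Proof.  `s = T ^ e * hv = X ^ ((c0 + 1) * e + c0) * (u2 ^ e * u1)`, `w u = dP u + X * (u1⁻¹ * u2 * g u) +
X * ((u2 ^ e * u1)⁻¹ * a * dR u)` (inverses in `F⟦X⟧` of series with nonzero constant coefficient:
`PowerSeries.mul_inv_cancel`). -/
def StP3 : Prop := ∀ (F U : Type) [Field F] (c0 e : ℕ) (T hv a u1 u2 : F⟦X⟧) (dF dR dP g : U → F⟦X⟧),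
  hv = PowerSeries.X ^ c0 * u1 → PowerSeries.constantCoeff u1 ≠ 0 →
  T = PowerSeries.X ^ (c0 + 1) * u2 → PowerSeries.constantCoeff u2 ≠ 0 →
  (∀ u, a * dF u = T ^ e * (hv * dP u + T * g u)) →
  ∃ (s : F⟦X⟧) (w : U → F⟦X⟧), s ≠ 0 ∧
    (∀ u, a * (dF u + PowerSeries.X ^ ((c0 + 1) * e + c0 + 1) * dR u) = s * w u) ∧
    ∀ u, PowerSeries.constantCoeff (w u) = PowerSeries.constantCoeff (dP u)

/-! ## E: the independence of the family -/

/-- **E3** (EASY-MEDIUM, nearly `FC/I_E3.lean`; hypothesis `FC.StE2`).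
Proof.  As `fc_E3` with `y` instead of `H13.xT dp` in `H13.base_indep`; `MvPolynomial.aeval_algebraMap_apply`
(`hpt` is not needed). -/
def StE3 : Prop := StE2 → ∀ (k V Ξ Τ I : Type) [Field k] [Fintype V] [DecidableEq V] [Fintype Ξ]
  [Fintype Τ] [IsEmpty Τ] [Fintype I] (P : MvPolynomial V k) (dp : H97.Deep k V Ξ Τ I P)
  (S ρ : ℕ) (y : V → H13.TR k Ξ) (_ : ∀ v, PowerSeries.X ^ (dp.D + 1) ∣ y v - H13.xT dp v)
  (c : Fin ρ → I → F0 k Ξ) (J : Type) (α : J → Ξ →₀ ℕ) (β : J → I →₀ ℕ),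
  LinearIndependent k (fun j => monomial (α j) (1 : k) * ∏ i, dp.q i ^ (β j i)) →
  LinearIndependent k (fun p : (J × (Fin ρ →₀ ℕ)) × ((Fin (S + 1) →₀ ℕ) × (Fin (S + 1) →₀ ℕ)) =>
    (((∏ i, C (C (th0 k i)) ^ α p.1.1 i) *
      (∏ i, C (C (aeval (fun v => algebraMap (H13.TR k Ξ) (F0 k Ξ) (y v)) (pderiv (dp.dir i) P)) +
        ∑ a, C (c a i) * X a) ^ β p.1.1 i) *
      ∏ a, C (X a) ^ p.1.2 a) *
      ((∏ j, X (Sum.inl j) ^ p.2.1 j) * ∏ j, X (Sum.inr j) ^ p.2.2 j) : RR (F0 k Ξ) ρ S))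

/-- **E4** (MEDIUM, an adaptation of `FC/I_E4.lean`; hypotheses `SN.StPH`, `FC.StD2`, `FC.StD3`, `FC.StD4`).
Proof.  `StPH` as in `fc_E4` with the coordinates `Ξ ⊕ Fin (ρ + 1)`, `mx0 v0 x0`, `mx1 v0 (C (X1 v i))` and
`th = Sum.elim (fun i => C (C (C (θ i)))) (Fin.cons (io z + X ^ (e + 1) * (io κ * C (C (X 0))))
(fun a => io (lam a) + ∑ b, io (M a b) * C (C (X b.succ))))`, `io = E4_io k F (ρ + 1) S`.  The value of the point at
`inl v` is `x' v = io (zh v0 x0 X1 θ z v) + if v = v0 then X ^ (e + 1) * (io κ * C (C (X 0))) else 0`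
(`Fintype.sum_sum_type`, `Fin.sum_univ_succ`), the value at `inr a` is `th (inr a.succ)`.
`X ^ (e + 1)` divides `aeval x' q - io (aeval (zh ..) q)` for all `q` (`H13.aeval_congr_dvd`, `comp_aeval_apply`), so
modulo `X ^ (e + 1)` the derivative of the output is `∑ a, th (inr a.succ) * io (J a i)`, which is
`X ^ e * (io (w i) + ∑ b, io (c b i) * C (C (X b.succ)))` exactly as in `fc_E4`. -/
def StE4 : Prop := StPH → StD2 → StD3 → StD4 → ∀ (k V Ξ I F : Type) [Field k] [Field F] [Algebra k F]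
  [DecidableEq V] [Fintype Ξ] (S ρ : ℕ) (Q : Fin S → MvPolynomial (V ⊕ Fin S) k⟦X⟧) (_ : Acyc Q)
  (f : Fin S → MvPolynomial V k⟦X⟧) (_ : ∀ j, f j = ev X f (Q j)) (s : Fin ρ → Fin S) (v0 : V)
  (x0 : V → k⟦X⟧) (X1 : V → Ξ → k) (θ : Ξ → F) (z κ : F⟦X⟧) (dir : I → V) (e : ℕ)
  (lam : Fin ρ → F⟦X⟧) (M : Fin ρ → Fin ρ → F⟦X⟧) (w : I → F⟦X⟧) (c : Fin ρ → I → F⟦X⟧)
  (_ : ∀ i, PowerSeries.X ^ e * w i =
    ∑ a, lam a * aeval (zh v0 x0 X1 θ z) (pderiv (dir i) (f (s a))))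
  (_ : ∀ a i, ∑ b, M b a * aeval (zh v0 x0 X1 θ z) (pderiv (dir i) (f (s b))) =
    PowerSeries.X ^ e * c a i),
  ∃ Φ : MvPolynomial (Var (Ξ ⊕ Fin (ρ + 1)) (S + 1)) k⟦X⟧ →ₐ[k⟦X⟧] (RR F (ρ + 1) S)⟦X⟧,
    (∀ i, Φ (X (Sum.inl (Sum.inl i))) = PowerSeries.C (C (C (θ i)))) ∧
    Φ (X (Sum.inl (Sum.inr 0))) = E4_io k F (ρ + 1) S z +
      PowerSeries.X ^ (e + 1) * (E4_io k F (ρ + 1) S κ * PowerSeries.C (C (X 0))) ∧
    (∀ j, Φ (Hp (mx0 v0 x0) (mx1 v0 fun v i => PowerSeries.C (X1 v i)) (exQ Q s) j) =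
      algebraMap k⟦X⟧ (RR F (ρ + 1) S)⟦X⟧ (PowerSeries.X ^ (e + 1)) *
        PowerSeries.C (X (Sum.inl j))) ∧
    (∀ j, Φ (Ha (mx0 v0 x0) (mx1 v0 fun v i => PowerSeries.C (X1 v i)) (exQ Q s) (Fin.last S) j) =
      algebraMap k⟦X⟧ (RR F (ρ + 1) S)⟦X⟧ (PowerSeries.X ^ (e + 1)) *
        PowerSeries.C (X (Sum.inr j))) ∧
    ∀ i, ∃ g : (RR F (ρ + 1) S)⟦X⟧,
      Φ (Gp (mx0 v0 x0) (mx1 v0 fun v i => PowerSeries.C (X1 v i)) (exQ Q s) (Sum.inl (dir i))) =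
        algebraMap k⟦X⟧ (RR F (ρ + 1) S)⟦X⟧ (PowerSeries.X ^ e) * g ∧
      PowerSeries.constantCoeff g = C (C (PowerSeries.constantCoeff (w i)) +
        ∑ a : Fin ρ, C (PowerSeries.constantCoeff (c a i)) * X a.succ)

/-- **E5** (EASY-MEDIUM, compare `FC/I_E5.lean`).  The values of the polynomials `qq`.
Proof.  `Φ (ptx (mx0 ..) (mx1 ..) (inl v))` is the value of the point at `v`: for `v ≠ v0` it is
`algebraMap (x0 v) + ∑ i, C (C (C (algebraMap (X1 v i) * θ i))) = io (xh x0 X1 θ v)` (see `hp1` in `FC/I_E4.lean`; the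
terms of the new coordinates have the coefficient `0`), for `v0` it is `Φ (X (inl (inr 0)))`; both sides are
`k⟦X⟧`-algebra homomorphisms in `p` (`comp_aeval_apply` or `MvPolynomial.induction_on`). -/
def StE5 : Prop := ∀ (k V Ξ F : Type) [Field k] [Field F] [Algebra k F] [DecidableEq V] [Fintype Ξ]
  (S ρ : ℕ) (v0 : V) (x0 : V → k⟦X⟧) (X1 : V → Ξ → k) (θ : Ξ → F) (z : F⟦X⟧)
  (d : (RR F (ρ + 1) S)⟦X⟧)
  (Φ : MvPolynomial (Var (Ξ ⊕ Fin (ρ + 1)) (S + 1)) k⟦X⟧ →ₐ[k⟦X⟧] (RR F (ρ + 1) S)⟦X⟧)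
  (_ : ∀ i, Φ (X (Sum.inl (Sum.inl i))) = PowerSeries.C (C (C (θ i))))
  (_ : Φ (X (Sum.inl (Sum.inr 0))) = E4_io k F (ρ + 1) S z + d) (p : MvPolynomial V k⟦X⟧),
  Φ (qq v0 x0 (fun v i => PowerSeries.C (X1 v i)) p) =
    aeval (fun v => E4_io k F (ρ + 1) S (zh v0 x0 X1 θ z v) + if v = v0 then d else 0) p

/-! ## F: weights, counting, numbers -/

/-- **F1** (EASY-MEDIUM, nearly `FC/I_F1.lean`; hypotheses `SN.StW1`, `SN.StW2`).  The weight of `qq`. -/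
def StF1 : Prop := StW1 → StW2 → ∀ (O V Ξ : Type) [CommRing O] [Fintype V] [DecidableEq V] [Fintype Ξ]
  (S ρ : ℕ) (v0 : V) (x0 : V → O) (x1 : V → Ξ → O) (p : MvPolynomial V O) (n : ℕ)
  (a a' : Fin (S + 1) → ℕ), p.totalDegree ≤ n → WD (wv a a') n (qq (ρ := ρ) (S := S) v0 x0 x1 p)

/-- **F2** (EASY-MEDIUM, nearly `FC/I_F2.lean`; hypotheses `SN.StW1`, `SN.StW2`, `SN.StW4`, `StF1`).  The weight
of the family.
Proof.  As `fc_F2`; `tm 0 = qq P - C T` (`Fin.cons_zero`) and `tm a.succ` (`Fin.cons_succ`) have weight at most `g1`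
(`Fin.cases`). -/
def StF2 : Prop := StW1 → StW2 → StW4 → StF1 → ∀ (O V Ξ I : Type) [CommRing O] [Fintype V]
  [DecidableEq V] [Fintype Ξ] [Fintype I] (S ρ : ℕ) (v0 : V) (x0 : V → O) (x1 : V → Ξ → O)
  (Q : Fin S → MvPolynomial (V ⊕ Fin S) O) (s : Fin ρ → Fin S) (b : O) (u : Fin ρ → V)
  (P : MvPolynomial V O) (T : O) (p : Fin ρ → MvPolynomial V O) (dir : I → V)
  (a a' h h' : Fin (S + 1) → ℕ) (g g1 : ℕ),
  Wt (exQ Q s) a a' h h' g → g ≤ g1 → P.totalDegree ≤ g1 → (∀ a, (p a).totalDegree ≤ g1) →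
  ∀ (D0 N : ℕ) (α : Ξ →₀ ℕ) (β : I →₀ ℕ) (δ : Fin (ρ + 1) →₀ ℕ) (γ γ' : Fin (S + 1) →₀ ℕ),
    α.degree ≤ D0 → β.degree ≤ N →
    WD (wv a a') (D0 + g * N + g1 * ∑ a, δ a + (∑ j, h j * γ j + ∑ j, h' j * γ' j))
      (famM v0 x0 x1 Q s b u P T p dir α β δ γ γ')

/-- **WB** (EASY-MEDIUM, nearly `FC/I_WB.lean`; hypotheses listed).  WEIGHTED BEZOUT bound.
Proof.  As `fc_WB`, with `FC.StG6` for `ρ + 1` instead of `ρ`; the degree of `map C P` is at most that of `P`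
(`WB_map`, `WB_pderiv` in `FC/I_WB.lean`). -/
def StWB : Prop := StNB → StW1 → StW2 → StW4 → StF1 → StF2 → StG1 → StG2 → StG3 → StG5 → FC.StG6 →
  StG7 → ∀ (k V Ξ Τ I : Type) [Field k] [IsAlgClosed k] [Fintype V] [DecidableEq V]
  [Fintype Ξ] [Fintype Τ] [IsEmpty Τ] [Fintype I] (P : MvPolynomial V k)
  (dp : H97.Deep k V Ξ Τ I P) (_ : ∀ x : Ξ → k, (∀ i, eval x (dp.q i) = 0) → x = 0) (S ρ : ℕ)
  (Q : Fin S → MvPolynomial (V ⊕ Fin S) k⟦X⟧) (s' : Fin ρ → Fin S)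
  (_ : LIm k V Ξ Τ I P dp S ρ Q s') (a a' h h' : Fin (S + 1) → ℕ) (g g1 : ℕ)
  (_ : Wt (exQ Q s') a a' h h' g) (_ : g ≤ g1) (_ : P.totalDegree ≤ g1) (_ : 1 ≤ Fintype.card Ξ),
  (dp.D : ℝ) ^ Fintype.card Ξ ≤ Real.exp 1 * (Fintype.card Ξ : ℝ) * (g : ℝ) ^ Fintype.card Ξ *
    ((g1 : ℝ) ^ (ρ + 1) * ∏ j, ((h j : ℝ) / a j * ((h' j : ℝ) / a' j)))

/-- The conclusion of `WB`. -/
def WBc : Prop := ∀ (k V Ξ Τ I : Type) [Field k] [IsAlgClosed k] [Fintype V] [DecidableEq V]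
  [Fintype Ξ] [Fintype Τ] [IsEmpty Τ] [Fintype I] (P : MvPolynomial V k)
  (dp : H97.Deep k V Ξ Τ I P) (_ : ∀ x : Ξ → k, (∀ i, eval x (dp.q i) = 0) → x = 0) (S ρ : ℕ)
  (Q : Fin S → MvPolynomial (V ⊕ Fin S) k⟦X⟧) (s' : Fin ρ → Fin S)
  (_ : LIm k V Ξ Τ I P dp S ρ Q s') (a a' h h' : Fin (S + 1) → ℕ) (g g1 : ℕ)
  (_ : Wt (exQ Q s') a a' h h' g) (_ : g ≤ g1) (_ : P.totalDegree ≤ g1) (_ : 1 ≤ Fintype.card Ξ),
  (dp.D : ℝ) ^ Fintype.card Ξ ≤ Real.exp 1 * (Fintype.card Ξ : ℝ) * (g : ℝ) ^ Fintype.card Ξ *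
    ((g1 : ℝ) ^ (ρ + 1) * ∏ j, ((h j : ℝ) / a j * ((h' j : ℝ) / a' j)))

/-- **WL** (EASY-MEDIUM, nearly `FC/I_WL.lean`; hypotheses listed).  The bound for a circuit with levels.
Proof.  As `fc_WL` from the line `have hQ' : Lev t (exl t lev) (exQ Q s')` on, with `ρ + 1 ≤ r + 1` for `ρ ≤ r`
(`WL_num` of `FC/I_WL.lean` for `ρ + 1`, `r + 1`). -/
def StWL : Prop := StD1 → SN.StL3 → StN6 → StN7 → WBc →
  ∀ (k V Ξ Τ I : Type) [Field k] [IsAlgClosed k] [Fintype V] [DecidableEq V]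
  [Fintype Ξ] [Fintype Τ] [IsEmpty Τ] [Fintype I] (P : MvPolynomial V k)
  (dp : H97.Deep k V Ξ Τ I P) (_ : ∀ x : Ξ → k, (∀ i, eval x (dp.q i) = 0) → x = 0)
  (S t r n ρ : ℕ) (_ : 1 ≤ t) (lev : Fin S → ℕ) (Q : Fin S → MvPolynomial (V ⊕ Fin S) k⟦X⟧)
  (_ : Lev t lev Q) (s' : Fin ρ → Fin S) (_ : ρ ≤ r) (_ : LIm k V Ξ Τ I P dp S ρ Q s')
  (_ : P.totalDegree ≤ n) (_ : 1 ≤ Fintype.card Ξ),
  (dp.D : ℝ) ^ Fintype.card Ξ ≤ Real.exp 1 * (Fintype.card Ξ : ℝ) *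
    (3 * Real.exp 2 * (1 + 5.5 * (((S + 1 : ℕ) : ℝ) / (Fintype.card Ξ : ℝ)) / t) ^ t) ^
      Fintype.card Ξ *
    (max (3 * Real.exp 2 * (1 + 5.5 * (((S + 1 : ℕ) : ℝ) / (Fintype.card Ξ : ℝ)) / t) ^ t)
      (n : ℝ)) ^ (r + 1)

/-- **N8** (EASY-MEDIUM, an adaptation of `FC/I_N8.lean`).  The final numbers.
Proof.  As `fc_N8`.  In the case `Z < m` the hypothesis is `a^κ ≤ e κ Z^κ m^r m`, and `e κ m ≤ 1.01^κ` for
`κ = 3 a (a + 1) ≥ 2268`, `m ≤ 9 a + 9`: `(9 a + 9)^2 ≤ 28 κ`, so `m ≤ κ` and `e κ m ≤ 3 κ^2 ≤ 1.01^κ`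
(`3 * 2268^2 < 1.6 * 10^7 < e^22.5 < 1.01^2268`, and `κ^2` grows by a factor at most `1.01` from `κ` to `κ + 1`; compare
`N8_ek` in `SN/I_N8.lean`).  The rest is the same. -/
def StN8 : Prop := ∀ (m a S t r : ℕ), 1 ≤ m → 1 ≤ t → 9 * a + 1 ≤ m → m ≤ 9 * a + 9 →
  (1 ≤ a → (a : ℝ) ^ (3 * a * (a + 1)) ≤ Real.exp 1 * ((3 * a * (a + 1) : ℕ) : ℝ) *
    (3 * Real.exp 2 * (1 + 5.5 * (((S + 1 : ℕ) : ℝ) / ((3 * a * (a + 1) : ℕ) : ℝ)) / t) ^ t) ^
      (3 * a * (a + 1)) *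
    (max (3 * Real.exp 2 * (1 + 5.5 * (((S + 1 : ℕ) : ℝ) / ((3 * a * (a + 1) : ℕ) : ℝ)) / t) ^ t)
      (m : ℝ)) ^ (r + 1)) →
  (m : ℝ) ^ (1 - 28 * (r : ℝ) / (m : ℝ) ^ 2) ≤ 250 * (1 + 160 * (S + 1) / (t * (m : ℝ) ^ 2)) ^ t

end Pool.Agent.Work.MP_499dc6_lc.FM
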