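import Pool.Agent.Work.MP_499dc6_lc.FM.Loc
import Pool.Agent.Work.MP_499dc6_lc.SN.I_LI

/-!
THEOREM FM, E6: the family is linearly independent over the power series (assembly).
-/

open MvPolynomial
open scoped PowerSeries

namespace Pool.Agent.Work.MP_499dc6_lc.FM

open Pool.Agent.Work.MP_499dc6_lc.SN
open Pool.Agent.Work.MP_499dc6_lc.FC

theorem E6m_core (hE1 : FC.StE1) {k A R' Ξ I Pt : Type} {ρ n : ℕ} [Field k] [CommRing A]
    [Algebra k⟦X⟧ A] [CommRing R'] [IsDomain R'] [Algebra k R'] [Fintype Ξ] [Fintype I]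
    (Φ : A →ₐ[k⟦X⟧] R'⟦X⟧) (xi : Ξ → A) (G : I → A) (T : Fin ρ → A) (H H' : Fin n → A)
    (e e' : ℕ) (eT : Fin ρ → ℕ) (xi' : Ξ → R') (g : I → R'⟦X⟧) (t : Fin ρ → R'⟦X⟧)
    (W U : Fin n → R')
    (h1 : ∀ i, Φ (xi i) = PowerSeries.C (xi' i))
    (h2 : ∀ i, Φ (G i) = algebraMap k⟦X⟧ R'⟦X⟧ (PowerSeries.X ^ e) * g i)
    (h3 : ∀ a, Φ (T a) = algebraMap k⟦X⟧ R'⟦X⟧ (PowerSeries.X ^ eT a) * t a)
    (h4 : ∀ j, Φ (H j) = algebraMap k⟦X⟧ R'⟦X⟧ (PowerSeries.X ^ e') * PowerSeries.C (W j))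
    (h5 : ∀ j, Φ (H' j) = algebraMap k⟦X⟧ R'⟦X⟧ (PowerSeries.X ^ e') * PowerSeries.C (U j))
    (α : Pt → Ξ →₀ ℕ) (β : Pt → I →₀ ℕ) (δ : Pt → Fin ρ →₀ ℕ) (γ γ' : Pt → Fin n →₀ ℕ)
    (hlead : LinearIndependent k (fun p => ((∏ i, xi' i ^ α p i) *
      (∏ i, PowerSeries.constantCoeff (g i) ^ β p i) *
      ∏ a, PowerSeries.constantCoeff (t a) ^ δ p a) *
      ((∏ j, W j ^ γ p j) * ∏ j, U j ^ γ' p j))) :
    LinearIndependent k⟦X⟧ (fun p => ((∏ i, xi i ^ α p i) * (∏ i, G i ^ β p i) *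
      ∏ a, T a ^ δ p a) * ((∏ j, H j ^ γ p j) * ∏ j, H' j ^ γ' p j)) := by
  have hE := hE1 k A R' (Ξ ⊕ (I ⊕ (Fin ρ ⊕ (Fin n ⊕ Fin n)))) Pt Φ
    (Sum.elim xi (Sum.elim G (Sum.elim T (Sum.elim H H'))))
    (Sum.elim (fun _ => 1) (Sum.elim (fun _ => PowerSeries.X ^ e) (Sum.elim
      (fun a => PowerSeries.X ^ eT a) (Sum.elim (fun _ => PowerSeries.X ^ e')
      (fun _ => PowerSeries.X ^ e')))))
    (Sum.elim (fun i => PowerSeries.C (xi' i)) (Sum.elim g (Sum.elim t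
      (Sum.elim (fun j => PowerSeries.C (W j)) (fun j => PowerSeries.C (U j))))))
    (fun p => Sum.elim (α p) (Sum.elim (β p) (Sum.elim (δ p) (Sum.elim (γ p) (γ' p)))))
    ?_ ?_ ?_
  · refine LI_congr hE fun p => ?_
    simp only [Fintype.prod_sum_type, Sum.elim_inl, Sum.elim_inr]
    ring
  · rintro (i | i | i | i | i)
    · exact one_ne_zero
    · exact pow_ne_zero _ PowerSeries.X_ne_zero
    · exact pow_ne_zero _ PowerSeries.X_ne_zero
    · exact pow_ne_zero _ PowerSeries.X_ne_zero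
    · exact pow_ne_zero _ PowerSeries.X_ne_zero
  · rintro (i | i | i | i | i)
    · simp only [Sum.elim_inl, map_one, one_mul]
      exact h1 i
    · exact h2 i
    · exact h3 i
    · exact h4 i
    · exact h5 i
  · refine LI_congr hlead fun p => ?_
    simp only [Fintype.prod_sum_type, Sum.elim_inl, Sum.elim_inr, PowerSeries.constantCoeff_C]
    ring

theorem E6m_const {F : Type} [Field F] {ρ : ℕ} (d : F) (c : Fin ρ → F) (a : Fin ρ)
    (h : ∀ b, c b = if b = a then 1 else 0) :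
    ((C d + ∑ b, C (c b) * X b.succ : MvPolynomial (Fin (ρ + 1)) F)) - C d = X a.succ := by
  have h7 : ∀ b : Fin ρ, (C (c b) * X b.succ : MvPolynomial (Fin (ρ + 1)) F) =
      if b = a then X b.succ else 0 := by
    intro b
    rw [h]
    by_cases hba : b = a
    · rw [if_pos hba, if_pos hba, C_1, one_mul]
    · rw [if_neg hba, if_neg hba, C_0, zero_mul]
  rw [add_sub_cancel_left, Finset.sum_congr rfl fun b _ => h7 b,
    Finset.sum_ite_eq' Finset.univ a, if_pos (Finset.mem_univ a)]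

/-- the second half, over an arbitrary field -/
theorem E6m_half (hE1 : FC.StE1) {k V Ξ I F : Type} [Field k] [Field F] [Algebra k F] [Fintype Ξ]
    [Fintype I] [DecidableEq V] {S ρ : ℕ} (Q : Fin S → MvPolynomial (V ⊕ Fin S) k⟦X⟧)
    (s : Fin ρ → Fin S) (v0 : V)
    (x0 : V → k⟦X⟧) (X1 : V → Ξ → k) (θ : Ξ → F) (dir : I → V) (e : ℕ)
    (w : I → F⟦X⟧) (c : Fin ρ → I → F⟦X⟧) (c' : Fin ρ → I) (P : MvPolynomial V k)
    (P' : V → MvPolynomial V k) (T : k⟦X⟧) (d : V → F)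
    (Φ : MvPolynomial (Var (Ξ ⊕ Fin (ρ + 1)) (S + 1)) k⟦X⟧ →ₐ[k⟦X⟧] (RR F (ρ + 1) S)⟦X⟧)
    (hΦ1 : ∀ i, Φ (X (Sum.inl (Sum.inl i))) = PowerSeries.C (C (C (θ i))))
    (hΦ2 : ∀ j, Φ (Hp (mx0 v0 x0) (mx1 v0 fun v i => PowerSeries.C (X1 v i)) (exQ Q s) j) =
      algebraMap k⟦X⟧ (RR F (ρ + 1) S)⟦X⟧ (PowerSeries.X ^ (e + 1)) *
        PowerSeries.C (X (Sum.inl j)))
    (hΦ3 : ∀ j, Φ (Ha (mx0 v0 x0) (mx1 v0 fun v i => PowerSeries.C (X1 v i)) (exQ Q s)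
        (Fin.last S) j) =
      algebraMap k⟦X⟧ (RR F (ρ + 1) S)⟦X⟧ (PowerSeries.X ^ (e + 1)) *
        PowerSeries.C (X (Sum.inr j)))
    (g : I → (RR F (ρ + 1) S)⟦X⟧)
    (hg1 : ∀ i, Φ (Gp (mx0 v0 x0) (mx1 v0 fun v i => PowerSeries.C (X1 v i)) (exQ Q s)
      (Sum.inl (dir i))) = algebraMap k⟦X⟧ (RR F (ρ + 1) S)⟦X⟧ (PowerSeries.X ^ e) * g i)
    (hg2 : ∀ i, PowerSeries.constantCoeff (g i) = C (C (PowerSeries.constantCoeff (w i)) +
        ∑ a : Fin ρ, C (PowerSeries.constantCoeff (c a i)) * X a.succ))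
    (hc : ∀ a b, c a (c' b) = if a = b then 1 else 0)
    (hP : Φ (qq v0 x0 (fun v i => PowerSeries.C (X1 v i)) (MvPolynomial.map PowerSeries.C P)) =
      algebraMap k⟦X⟧ (RR F (ρ + 1) S)⟦X⟧ T +
        algebraMap k⟦X⟧ (RR F (ρ + 1) S)⟦X⟧ (PowerSeries.X ^ (e + 1)) *
          PowerSeries.C (C (X 0)))
    (hpp : ∀ v, PowerSeries.constantCoeff (Φ (qq v0 x0 (fun v i => PowerSeries.C (X1 v i))
      (MvPolynomial.map PowerSeries.C (P' v)))) = C (C (d v)))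
    (hw : ∀ i, PowerSeries.constantCoeff (w i) = d (dir i))
    (J : Type) (α : J → Ξ →₀ ℕ) (β : J → I →₀ ℕ)
    (hlead : LinearIndependent k
      (fun p : (J × (Fin (ρ + 1) →₀ ℕ)) × ((Fin (S + 1) →₀ ℕ) × (Fin (S + 1) →₀ ℕ)) =>
      (((∏ i, C (C (θ i)) ^ α p.1.1 i) *
      (∏ i, C (C (d (dir i)) +
        ∑ a, C (Fin.cons (α := fun _ => I → F) (fun _ => 0)
          (fun a i => PowerSeries.constantCoeff (c a i)) a i) * X a) ^ β p.1.1 i) *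
      ∏ a, C (X a) ^ p.1.2 a) *
      ((∏ j, X (Sum.inl j) ^ p.2.1 j) * ∏ j, X (Sum.inr j) ^ p.2.2 j) : RR F (ρ + 1) S))) :
    LinearIndependent k⟦X⟧
      (fun p : (J × (Fin (ρ + 1) →₀ ℕ)) × ((Fin (S + 1) →₀ ℕ) × (Fin (S + 1) →₀ ℕ)) =>
        famM v0 x0 (fun v i => PowerSeries.C (X1 v i)) Q s
          (PowerSeries.X ^ e) (fun a => dir (c' a)) (MvPolynomial.map PowerSeries.C P) T
          (fun a => MvPolynomial.map PowerSeries.C (P' (dir (c' a))))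
          dir (α p.1.1) (β p.1.1) p.1.2 p.2.1 p.2.2) := by
  -- the exponents and the cofactors of the polynomials `t`
  have hT : ∀ a : Fin (ρ + 1), Φ (tm v0 x0 (fun v i => PowerSeries.C (X1 v i)) Q s
      (PowerSeries.X ^ e) (fun a => dir (c' a)) (MvPolynomial.map PowerSeries.C P) T
      (fun a => MvPolynomial.map PowerSeries.C (P' (dir (c' a)))) a) =
      algebraMap k⟦X⟧ (RR F (ρ + 1) S)⟦X⟧ (PowerSeries.X ^
        (Fin.cons (α := fun _ => ℕ) (e + 1) (fun _ => e) a : ℕ)) *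
        Fin.cons (α := fun _ => (RR F (ρ + 1) S)⟦X⟧) (PowerSeries.C (C (X 0)))
          (fun a => g (c' a) - Φ (qq v0 x0 (fun v i => PowerSeries.C (X1 v i))
            (MvPolynomial.map PowerSeries.C (P' (dir (c' a)))))) a := by
    intro a
    refine Fin.cases ?_ (fun a => ?_) a
    · have h5 : (C T : MvPolynomial (Var (Ξ ⊕ Fin (ρ + 1)) (S + 1)) k⟦X⟧) =
          algebraMap k⟦X⟧ _ T := rfl
      simp only [tm, Fin.cons_zero]
      rw [map_sub, hP, h5, AlgHom.commutes]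
      ring
    · have h5 : (C (PowerSeries.X ^ e) : MvPolynomial (Var (Ξ ⊕ Fin (ρ + 1)) (S + 1)) k⟦X⟧) =
          algebraMap k⟦X⟧ _ (PowerSeries.X ^ e) := rfl
      simp only [tm, Fin.cons_succ]
      rw [map_sub, map_mul, hg1, h5, AlgHom.commutes, mul_sub]
  have h6 : ∀ a : Fin (ρ + 1), PowerSeries.constantCoeff
      (Fin.cons (α := fun _ => (RR F (ρ + 1) S)⟦X⟧) (PowerSeries.C (C (X 0)))
          (fun a => g (c' a) - Φ (qq v0 x0 (fun v i => PowerSeries.C (X1 v i))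
            (MvPolynomial.map PowerSeries.C (P' (dir (c' a)))))) a) = C (X a) := by
    intro a
    refine Fin.cases ?_ (fun a => ?_) a
    · rw [Fin.cons_zero, PowerSeries.constantCoeff_C]
    · rw [Fin.cons_succ, map_sub, hg2, hpp, hw, ← map_sub]
      congr 1
      refine E6m_const _ (fun b => PowerSeries.constantCoeff (c b (c' a))) a fun b => ?_
      rw [hc]
      split_ifs
      · exact map_one _
      · exact map_zero _
  have h7 : ∀ i, PowerSeries.constantCoeff (g i) = C (C (d (dir i)) +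
        ∑ a, C (Fin.cons (α := fun _ => I → F) (fun _ => 0)
          (fun a i => PowerSeries.constantCoeff (c a i)) a i) * X a) := by
    intro i
    rw [hg2 i, hw i, Fin.sum_univ_succ]
    simp only [Fin.cons_zero, Fin.cons_succ, C_0, zero_mul, zero_add]
  have hlead2 : LinearIndependent k
      (fun p : (J × (Fin (ρ + 1) →₀ ℕ)) × ((Fin (S + 1) →₀ ℕ) × (Fin (S + 1) →₀ ℕ)) =>
      (((∏ i, C (C (θ i)) ^ α p.1.1 i) *
      (∏ i, PowerSeries.constantCoeff (g i) ^ β p.1.1 i) *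
      ∏ a, PowerSeries.constantCoeff
      (Fin.cons (α := fun _ => (RR F (ρ + 1) S)⟦X⟧) (PowerSeries.C (C (X 0)))
          (fun a => g (c' a) - Φ (qq v0 x0 (fun v i => PowerSeries.C (X1 v i))
            (MvPolynomial.map PowerSeries.C (P' (dir (c' a)))))) a) ^ p.1.2 a) *
      ((∏ j, X (Sum.inl j) ^ p.2.1 j) * ∏ j, X (Sum.inr j) ^ p.2.2 j) : RR F (ρ + 1) S)) := by
    refine LI_congr hlead fun p => ?_
    rw [Finset.prod_congr rfl fun a _ => congrArg (· ^ p.1.2 a) (h6 a),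
      Finset.prod_congr rfl fun i _ => congrArg (· ^ β p.1.1 i) (h7 i)]
  have hE := E6m_core (R' := RR F (ρ + 1) S) hE1 Φ (fun i => X (Sum.inl (Sum.inl i)))
    (fun i => Gp (mx0 v0 x0) (mx1 v0 fun v i => PowerSeries.C (X1 v i)) (exQ Q s)
      (Sum.inl (dir i)))
    (tm v0 x0 (fun v i => PowerSeries.C (X1 v i)) Q s
      (PowerSeries.X ^ e) (fun a => dir (c' a)) (MvPolynomial.map PowerSeries.C P) T
      (fun a => MvPolynomial.map PowerSeries.C (P' (dir (c' a)))))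
    (Hp (mx0 v0 x0) (mx1 v0 fun v i => PowerSeries.C (X1 v i)) (exQ Q s))
    (Ha (mx0 v0 x0) (mx1 v0 fun v i => PowerSeries.C (X1 v i)) (exQ Q s) (Fin.last S))
    e (e + 1) _ (fun i => C (C (θ i))) g _
    (fun j => X (Sum.inl j)) (fun j => X (Sum.inr j)) hΦ1 hg1 hT hΦ2 hΦ3
    (fun p : (J × (Fin (ρ + 1) →₀ ℕ)) × ((Fin (S + 1) →₀ ℕ) × (Fin (S + 1) →₀ ℕ)) => α p.1.1)
    (fun p => β p.1.1) (fun p => p.1.2) (fun p => p.2.1) (fun p => p.2.2) hlead2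
  exact LI_congr hE fun p => by rw [famM]

/-- constant term of a value at a perturbed point -/
theorem E6m_cc {k V F : Type} [Field k] [Field F] [Algebra k F] [Fintype V] [DecidableEq V]
    (ρ S : ℕ) (v0 : V) (ζ : V → F⟦X⟧) (y : V → F) (hy : ∀ v, PowerSeries.constantCoeff (ζ v) = y v)
    (d : (RR F ρ S)⟦X⟧) (hd : PowerSeries.constantCoeff d = 0) (p : MvPolynomial V k) :
    PowerSeries.constantCoeff (aeval (fun v => E4_io k F ρ S (ζ v) + if v = v0 then d else 0)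
      (MvPolynomial.map PowerSeries.C p)) = C (C (aeval y p)) := by
  rw [H13.const_aeval, MvPolynomial.map_map]
  have h1 : (PowerSeries.constantCoeff (R := k)).comp PowerSeries.C = RingHom.id k := by
    ext a; simp
  rw [h1, MvPolynomial.map_id]
  have h2 : (fun v => PowerSeries.constantCoeff (E4_io k F ρ S (ζ v) + if v = v0 then d else 0)) =
      fun v => (C (C (y v)) : RR F ρ S) := by
    funext v
    rw [map_add, E4_io_cc, hy]
    split_ifs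
    · rw [hd, add_zero]
    · rw [map_zero, add_zero]
  rw [h2]
  have h3 := MvPolynomial.comp_aeval_apply
    ((IsScalarTower.toAlgHom k (MvPolynomial (Fin ρ) F) (RR F ρ S)).comp
      (IsScalarTower.toAlgHom k F (MvPolynomial (Fin ρ) F))) (f := y) (p := p)
  exact h3.symm

theorem fm_E6 (hPH : StPH) (hD2 : FC.StD2) (hD3 : FC.StD3) (hD4 : FC.StD4)
    (hC1 : FC.StC1) (hC2 : FC.StC2) (hC3 : FC.StC3) (hC4 : FC.StC4) (hC5 : FC.StC5)
    (hE1 : FC.StE1) (hE2 : FC.StE2) (hE3 : FM.StE3) (hE4 : FM.StE4) (hE5 : FM.StE5)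
    (hLK : StLK) (hLM : StLM) (hLT : StLT)
    (k V Ξ Τ I : Type) [Field k] [Fintype V] [DecidableEq V] [Fintype Ξ]
    [Fintype Τ] [IsEmpty Τ] [Fintype I] (P : MvPolynomial V k) (dp : H97.Deep k V Ξ Τ I P)
    (hP : Lin dp.v0 P) (S r : ℕ)
    (Q : Fin S → MvPolynomial (V ⊕ Fin S) k⟦X⟧) (hQ : Acyc Q) (f : Fin S → MvPolynomial V k⟦X⟧)
    (hf : ∀ j, f j = ev X f (Q j)) (s : Fin r → Fin S) (G h : MvPolynomial V k⟦X⟧)
    (a : Fin r → MvPolynomial V k⟦X⟧)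
    (hha : ∀ u, h * pderiv u G = ∑ i, a i * pderiv u (f (s i)))
    (hloc : Loc k V Ξ Τ I P dp G h) :
    ∃ (ρ : ℕ) (s' : Fin ρ → Fin S), ρ ≤ r ∧ LIm k V Ξ Τ I P dp S ρ Q s' := by
  classical
  obtain ⟨x0, z, κ, y, aa, sc, w, hz1, hz2, hz3, hz4, hH, hs, hw1, hw2⟩ := hloc
  obtain ⟨ρ, i', c', e, lam, M, c, hρ, h1, h2, h3⟩ := hC5 hC1 hC2 hC3 hC4 (F0 k Ξ) I r
    (fun i ι => aeval (zh dp.v0 x0 dp.X1 (th0 k) z) (pderiv (dp.dir ι) (f (s i))))
    (fun ι => w (dp.dir ι))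
    (aeval (zh dp.v0 x0 dp.X1 (th0 k) z) h * sc)
    (fun i => aa * aeval (zh dp.v0 x0 dp.X1 (th0 k) z) (a i)) (mul_ne_zero hH hs)
    (fun ι => by
      have h4 := congrArg (aeval (zh dp.v0 x0 dp.X1 (th0 k) z)) (hha (dp.dir ι))
      rw [map_mul, map_sum] at h4
      rw [mul_assoc, ← hw1, mul_left_comm, h4, Finset.mul_sum]
      refine Finset.sum_congr rfl fun i _ => ?_
      rw [map_mul, mul_assoc])
  obtain ⟨Φ, hΦ1, hΦ0, hΦ2, hΦ3, hΦ4⟩ := hE4 hPH hD2 hD3 hD4 k V Ξ I (F0 k Ξ) S ρ Q hQ f hf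
    (fun a => s (i' a)) dp.v0 x0 dp.X1 (th0 k) z κ dp.dir e lam M _ c h1 h2
  choose g hg1 hg2 using hΦ4
  have hio : ∀ n : ℕ, (PowerSeries.X : (RR (F0 k Ξ) (ρ + 1) S)⟦X⟧) ^ n =
      algebraMap k⟦X⟧ (RR (F0 k Ξ) (ρ + 1) S)⟦X⟧ (PowerSeries.X ^ n) := fun n => by
    rw [map_pow, PowerSeries.algebraMap_apply'', PowerSeries.map_X]
  have hv := hE5 k V Ξ (F0 k Ξ) S ρ dp.v0 x0 dp.X1 (th0 k) z _ Φ hΦ1 hΦ0
  refine ⟨ρ, fun a => s (i' a), hρ, x0, e, c', fun J α β hli => ?_⟩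
  refine E6m_half hE1 Q (fun a => s (i' a)) dp.v0 x0 dp.X1 (th0 k) dp.dir e
    (fun ι => w (dp.dir ι)) c c' P (fun v => pderiv v P) (x0 dp.v0)
    (fun v => aeval (fun v => algebraMap (H13.TR k Ξ) (F0 k Ξ) (y v)) (pderiv v P))
    Φ hΦ1 hΦ2 hΦ3 g hg1 hg2 h3 ?_ ?_ (fun i => hw2 _) J α β
    (hE3 hE2 k V Ξ Τ I P dp S (ρ + 1) y hz4 _ J α β hli)
  · -- the value of `P`
    rw [hv, hLT hLK k⟦X⟧ V (RR (F0 k Ξ) (ρ + 1) S)⟦X⟧ dp.v0 _
      ((hLM k k⟦X⟧ V PowerSeries.C dp.v0).2 P hP), ← comp_aeval_apply, ← comp_aeval_apply, hz1,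
      AlgHom.commutes, pderiv_map, ← hio]
    have h8 := congrArg (E4_io k (F0 k Ξ) (ρ + 1) S) hz2
    rw [map_mul, map_one] at h8
    linear_combination (PowerSeries.X ^ (e + 1) * PowerSeries.C (C (X 0))) * h8
  · intro v
    rw [hv]
    refine E6m_cc (ρ + 1) S dp.v0 _ _ hz3 _ ?_ _
    simp

end Pool.Agent.Work.MP_499dc6_lc.FM
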