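import Mathlib
import Pool.Agent.Work.MP_499dc6_lc.FM.Stmts
import Pool.Agent.Work.MP_499dc6_lc.SN.I_BC
import Pool.Agent.Work.MP_499dc6_lc.FC.I_A4

/-!
THEOREM FM, item S2: the ramification.
-/

set_option autoImplicit false

open MvPolynomial
open scoped PowerSeries

namespace Pool.Agent.Work.MP_499dc6_lc.FM

open Pool.Agent.Work.MP_499dc6_lc.SN
open Pool.Agent.Work.MP_499dc6_lc.FC

theorem S2m_inj (k : Type) [Field k] (N : ℕ) (hN : N ≠ 0) :
    Function.Injective (PowerSeries.expand N hN (R := k)).toRingHom := by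
  intro f g h
  ext n
  have h1 := congrArg (PowerSeries.coeff (N * n)) h
  change PowerSeries.coeff (N * n) (PowerSeries.expand N hN f) =
    PowerSeries.coeff (N * n) (PowerSeries.expand N hN g) at h1
  rwa [PowerSeries.coeff_expand_mul, PowerSeries.coeff_expand_mul] at h1

theorem S2m_Pe (k V : Type) [Field k] (N : ℕ) (hN : N ≠ 0) (F : MvPolynomial V k)
    (R : MvPolynomial V k⟦X⟧) :
    MvPolynomial.map (PowerSeries.expand N hN (R := k)).toRingHom (H13.Pe F R) =
      MvPolynomial.map PowerSeries.C F + C (PowerSeries.X ^ N) *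
        MvPolynomial.map (PowerSeries.expand N hN (R := k)).toRingHom R := by
  rw [H13.Pe, map_add, map_mul, MvPolynomial.map_C, MvPolynomial.map_map]
  have h1 : (PowerSeries.expand N hN (R := k)).toRingHom.comp (PowerSeries.C : k →+* k⟦X⟧) =
      (PowerSeries.C : k →+* k⟦X⟧) := by
    refine RingHom.ext fun a => ?_
    change PowerSeries.expand N hN (PowerSeries.C a) = PowerSeries.C a
    exact PowerSeries.expand_C N hN a
  have h2 : (PowerSeries.expand N hN (R := k)).toRingHom PowerSeries.X = PowerSeries.X ^ N := by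
    change PowerSeries.expand N hN PowerSeries.X = PowerSeries.X ^ N
    exact PowerSeries.expand_X N hN
  rw [h1, h2]

theorem fm_S2 : FM.StS2 := by
  intro k V _ N hN S t r lev F Q hQ f hf s R hR
  have hN0 : N ≠ 0 := by omega
  refine ⟨fun j => MvPolynomial.map (PowerSeries.expand N hN0 (R := k)).toRingHom (Q j),
    fun j => MvPolynomial.map (PowerSeries.expand N hN0 (R := k)).toRingHom (f j),
    MvPolynomial.map (PowerSeries.expand N hN0 (R := k)).toRingHom R, BC_lev _ t lev Q hQ, ?_, ?_⟩
  · intro j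
    show MvPolynomial.map (PowerSeries.expand N hN0 (R := k)).toRingHom (f j) = _
    rw [← BC_ev, ← hf j]
  · rw [← S2m_Pe]
    exact A4_rel _ (S2m_inj k N hN0) _ _ hR

end Pool.Agent.Work.MP_499dc6_lc.FM
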