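import Mathlib
import Pool.Agent.Work.MP_499dc6_lc.FM.Stmts

/-!
# Item L2 of block FM: the order of vanishing
-/

namespace Pool.Agent.Work.MP_499dc6_lc.FM

open MvPolynomial
open scoped PowerSeries
open Pool.Agent.Work.MP_499dc6_lc.SN
open Pool.Agent.Work.MP_499dc6_lc.FC

/-- the result of `kill v0` has degree `0` in `v0` -/
lemma L2m_kill {k V : Type} [Field k] [DecidableEq V] (v0 : V) (p : MvPolynomial V k) :
    degreeOf v0 (kill v0 p) = 0 := by
  induction p using MvPolynomial.induction_on with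
  | C a =>
    unfold kill
    rw [aeval_C]
    exact degreeOf_C a v0
  | add p q hp hq =>
    have h1 := degreeOf_add_le v0 (kill v0 p) (kill v0 q)
    rw [hp, hq, max_self] at h1
    rw [map_add]
    omega
  | mul_X p v hp =>
    have h1 := degreeOf_mul_le v0 (kill v0 p) (kill v0 (X v))
    have h2 : degreeOf v0 (kill v0 (X v : MvPolynomial V k)) = 0 := by
      unfold kill
      rw [aeval_X]
      by_cases hv : v = v0
      · rw [if_pos hv, degreeOf_zero]
      · rw [if_neg hv]
        exact degreeOf_X_of_ne (Ne.symm hv)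
    rw [hp, h2] at h1
    rw [map_mul]
    omega

/-- a polynomial with a nonzero derivative in `v0` has positive degree in `v0` -/
lemma L2m_pos {k V : Type} [Field k] (v0 : V) (P : MvPolynomial V k) (h : pderiv v0 P ≠ 0) :
    1 ≤ degreeOf v0 P := by
  by_contra hcon
  apply h
  apply pderiv_eq_zero_of_notMem_vars
  intro hv
  have h1 := mem_vars_iff_degreeOf_ne_zero.1 hv
  omega

theorem fm_L2 : FM.StL2 := by
  intro hL1 k V _ _ v0 P hP hA F hF hPF
  obtain ⟨hA1, hP1⟩ := hP
  have hdA : degreeOf v0 (pderiv v0 P) = 0 := by rw [← hA1]; exact L2m_kill v0 _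
  have hdP : 1 ≤ degreeOf v0 P := L2m_pos v0 P hA
  have hP0 : P ≠ 0 := by
    intro h0
    rw [h0, degreeOf_zero] at hdP
    omega
  have key : ∀ n : ℕ, ∀ F : MvPolynomial V k, degreeOf v0 F = n → F ≠ 0 → P ∣ F →
      ∃ (N e : ℕ) (c h : MvPolynomial V k), kill v0 h = h ∧ h ≠ 0 ∧
        pderiv v0 P ^ N * F = P ^ (e + 1) * (P * c + h) := by
    intro n
    induction n using Nat.strong_induction_on with
    | _ n ih =>
      intro F hn hF hPF
      obtain ⟨F1, rfl⟩ := hPF
      have hF1 : F1 ≠ 0 := by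
        rintro rfl
        exact hF (mul_zero _)
      obtain ⟨N, c, h, hh, hN⟩ := hL1 k V v0 P ⟨hA1, hP1⟩ F1
      by_cases h0 : h = 0
      · rw [h0, add_zero] at hN
        have hne : pderiv v0 P ^ N * F1 ≠ 0 := mul_ne_zero (pow_ne_zero _ hA) hF1
        have hd : degreeOf v0 (pderiv v0 P ^ N * F1) = degreeOf v0 F1 := by
          rw [degreeOf_mul_eq (pow_ne_zero _ hA) hF1, degreeOf_pow_eq v0 _ N hA, hdA, mul_zero, zero_add]
        have hd2 : degreeOf v0 (P * F1) = degreeOf v0 P + degreeOf v0 F1 := degreeOf_mul_eq hP0 hF1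
        obtain ⟨N', e, c', h', hh', hne', heq⟩ := ih (degreeOf v0 (pderiv v0 P ^ N * F1)) (by omega) _ rfl hne
          ⟨c, hN⟩
        refine ⟨N' + N, e + 1, c', h', hh', hne', ?_⟩
        calc pderiv v0 P ^ (N' + N) * (P * F1) = P * (pderiv v0 P ^ N' * (pderiv v0 P ^ N * F1)) := by ring
          _ = P * (P ^ (e + 1) * (P * c' + h')) := by rw [heq]
          _ = P ^ (e + 1 + 1) * (P * c' + h') := by ring
      · refine ⟨N, 0, c, h, hh, h0, ?_⟩
        calc pderiv v0 P ^ N * (P * F1) = P * (pderiv v0 P ^ N * F1) := by ring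
          _ = P * (P * c + h) := by rw [hN]
          _ = P ^ (0 + 1) * (P * c + h) := by ring
  exact key _ F rfl hF hPF

end Pool.Agent.Work.MP_499dc6_lc.FM
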