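import Mathlib
import Pool.Agent.Work.MP_499dc6_lc.FM.Stmts

/-!
THEOREM FM, item B1: the base point.
-/

namespace Pool.Agent.Work.MP_499dc6_lc.FM

open MvPolynomial
open scoped PowerSeries
open Pool.Agent.Work.MP_499dc6_lc.SN
open Pool.Agent.Work.MP_499dc6_lc.FC

theorem fm_B1 : FM.StB1 := by
  intro k V _ _ _ a L h hh
  by_contra hne
  push Not at hne
  apply hh
  have hinf : ∀ v : V, Set.Infinite {c : k⟦X⟧ | PowerSeries.X ^ L ∣ c - a v} := by
    intro v
    have hi : Function.Injective
        (fun c : k => (a v + PowerSeries.C c * PowerSeries.X ^ L : k⟦X⟧)) := by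
      intro c d hcd
      have h0 : (PowerSeries.C c * PowerSeries.X ^ L : k⟦X⟧) =
          PowerSeries.C d * PowerSeries.X ^ L := add_left_cancel hcd
      have h1 := congrArg (PowerSeries.coeff L) h0
      simpa [PowerSeries.coeff_C_mul, PowerSeries.coeff_X_pow] using h1
    refine (Set.infinite_range_of_injective hi).mono ?_
    rintro _ ⟨c, rfl⟩
    exact ⟨PowerSeries.C c, by ring⟩
  refine MvPolynomial.funext_set (fun v => {c : k⟦X⟧ | PowerSeries.X ^ L ∣ c - a v}) hinf ?_
  intro x hx
  rw [map_zero]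
  exact hne x fun v => hx v (Set.mem_univ v)

end Pool.Agent.Work.MP_499dc6_lc.FM
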