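import Mathlib
import Pool.Agent.Work.MP_499dc6_lc.FM.Stmts

/-!
Block FM, item B2: a nonzero polynomial does not vanish on a generic line through a point.
-/

set_option autoImplicit false

namespace Pool.Agent.Work.MP_499dc6_lc.FM

open MvPolynomial
open scoped PowerSeries
open Pool.Agent.Work.MP_499dc6_lc.SN
open Pool.Agent.Work.MP_499dc6_lc.FC

theorem B2m_line (k V : Type) [Field k] (X0 y0 : V → k) (h : MvPolynomial V k) :
    eval (fun v => PowerSeries.C (X0 v) + PowerSeries.X * PowerSeries.C (y0 v))
      (MvPolynomial.map PowerSeries.C h) =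
    ((aeval (fun v => Polynomial.C (X0 v) + Polynomial.X * Polynomial.C (y0 v)) h :
      Polynomial k) : k⟦X⟧) := by
  induction h using MvPolynomial.induction_on with
  | C a => simp
  | add p q hp hq => rw [map_add, map_add, map_add, Polynomial.coe_add, hp, hq]
  | mul_X p v hp =>
    rw [map_mul, map_mul, map_mul, Polynomial.coe_mul, hp, MvPolynomial.map_X, eval_X, aeval_X,
      Polynomial.coe_add, Polynomial.coe_mul, Polynomial.coe_C, Polynomial.coe_X,
      Polynomial.coe_C]

theorem fm_B2 : FM.StB2 := by
  intro k V _ _ _ X0 h hh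
  obtain ⟨y1, hy1⟩ : ∃ y1 : V → k, eval y1 h ≠ 0 := by
    by_contra hcon
    push Not at hcon
    exact hh (MvPolynomial.funext fun x => by rw [hcon x, map_zero])
  refine ⟨fun v => y1 v - X0 v, fun hz => ?_⟩
  have h1 := B2m_line k V X0 (fun v => y1 v - X0 v) h
  set L : V → Polynomial k := fun v => Polynomial.C (X0 v) + Polynomial.X * Polynomial.C (y1 v - X0 v)
    with hL
  rw [h1] at hz
  have h2 : (aeval L h : Polynomial k) = 0 := by
    apply Polynomial.coe_injective k
    rw [hz, Polynomial.coe_zero]
  apply hy1
  have h3 : (aeval L h : Polynomial k).eval 1 = eval y1 h := by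
    have h4 : (Polynomial.evalRingHom (1 : k)) (aeval L h) = eval y1 h := by
      rw [MvPolynomial.aeval_def, MvPolynomial.hom_eval₂]
      have h5 : (Polynomial.evalRingHom (1 : k)).comp (algebraMap k (Polynomial k)) = RingHom.id k := by
        ext a; simp
      have h6 : (fun v => (Polynomial.evalRingHom (1 : k)) (L v)) = y1 := by
        funext v; simp [hL]
      rw [h5]
      change eval₂ (RingHom.id k) (fun v => (Polynomial.evalRingHom (1 : k)) (L v)) h = _
      rw [h6]
      rfl
    exact h4
  rw [← h3, h2, Polynomial.eval_zero]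

end Pool.Agent.Work.MP_499dc6_lc.FM
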