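import Mathlib
import Pool.Agent.Work.MP_499dc6_lc.FM.Stmts

/-!
THEOREM FM, item E4: the substitution for the extended circuit.
-/

open MvPolynomial
open scoped PowerSeries

namespace Pool.Agent.Work.MP_499dc6_lc.FM

open Pool.Agent.Work.MP_499dc6_lc.SN
open Pool.Agent.Work.MP_499dc6_lc.FC

section

variable (k V Ξ F : Type) [Field k] [Field F] [Algebra k F] [DecidableEq V] [Fintype Ξ]

/-- The values of the coordinates of the extended section. -/
noncomputable def E4m_th (S ρ : ℕ) (θ : Ξ → F) (z κ : F⟦X⟧) (e : ℕ) (lam : Fin ρ → F⟦X⟧)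
    (M : Fin ρ → Fin ρ → F⟦X⟧) : Ξ ⊕ Fin (ρ + 1) → (RR F (ρ + 1) S)⟦X⟧ :=
  Sum.elim (fun i => PowerSeries.C (C (C (θ i))))
    (Fin.cons (α := fun _ => (RR F (ρ + 1) S)⟦X⟧)
      (E4_io k F (ρ + 1) S z + PowerSeries.X ^ (e + 1) *
        (E4_io k F (ρ + 1) S κ * PowerSeries.C (C (X 0))))
      (fun a => E4_io k F (ρ + 1) S (lam a) +
        ∑ b : Fin ρ, E4_io k F (ρ + 1) S (M a b) * PowerSeries.C (C (X b.succ))))

/-- The old coordinates of the point. -/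
theorem E4m_pt1 (S ρ : ℕ) (v0 : V) (x0 : V → k⟦X⟧) (X1 : V → Ξ → k) (θ : Ξ → F) (z κ : F⟦X⟧)
    (e : ℕ) (lam : Fin ρ → F⟦X⟧) (M : Fin ρ → Fin ρ → F⟦X⟧) (v : V) :
    algebraMap k⟦X⟧ (RR F (ρ + 1) S)⟦X⟧ (mx0 (ρ := ρ) v0 x0 (Sum.inl v)) +
      ∑ j, algebraMap k⟦X⟧ (RR F (ρ + 1) S)⟦X⟧
        (mx1 (ρ := ρ) v0 (fun v i => (PowerSeries.C (X1 v i) : k⟦X⟧)) (Sum.inl v) j) *
          E4m_th k Ξ F S ρ θ z κ e lam M j =
      E4_io k F (ρ + 1) S (zh v0 x0 X1 θ z v) +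
        if v = v0 then PowerSeries.X ^ (e + 1) *
          (E4_io k F (ρ + 1) S κ * PowerSeries.C (C (X 0))) else 0 := by
  rw [Fintype.sum_sum_type, Fin.sum_univ_succ]
  by_cases hv : v = v0
  · have h0 : mx0 (ρ := ρ) v0 x0 (Sum.inl v) = 0 := by
      show (if v = v0 then 0 else x0 v) = 0
      rw [if_pos hv]
    have h1 : ∑ i : Ξ, algebraMap k⟦X⟧ (RR F (ρ + 1) S)⟦X⟧
        (mx1 (ρ := ρ) v0 (fun v i => (PowerSeries.C (X1 v i) : k⟦X⟧)) (Sum.inl v) (Sum.inl i)) *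
          E4m_th k Ξ F S ρ θ z κ e lam M (Sum.inl i) = 0 := by
      refine Finset.sum_eq_zero fun i _ => ?_
      have : mx1 (ρ := ρ) v0 (fun v i => (PowerSeries.C (X1 v i) : k⟦X⟧)) (Sum.inl v)
          (Sum.inl i) = 0 := by
        show (if v = v0 then 0 else (PowerSeries.C (X1 v i) : k⟦X⟧)) = 0
        rw [if_pos hv]
      rw [this, map_zero, zero_mul]
    have h2 : ∑ a : Fin ρ, algebraMap k⟦X⟧ (RR F (ρ + 1) S)⟦X⟧
        (mx1 (ρ := ρ) v0 (fun v i => (PowerSeries.C (X1 v i) : k⟦X⟧)) (Sum.inl v)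
          (Sum.inr a.succ)) * E4m_th k Ξ F S ρ θ z κ e lam M (Sum.inr a.succ) = 0 := by
      refine Finset.sum_eq_zero fun a _ => ?_
      have : mx1 (ρ := ρ) v0 (fun v i => (PowerSeries.C (X1 v i) : k⟦X⟧)) (Sum.inl v)
          (Sum.inr a.succ) = 0 := by
        show (if v = v0 ∧ a.succ = 0 then (1 : k⟦X⟧) else 0) = 0
        rw [if_neg fun h => Fin.succ_ne_zero a h.2]
      rw [this, map_zero, zero_mul]
    have h3 : mx1 (ρ := ρ) v0 (fun v i => (PowerSeries.C (X1 v i) : k⟦X⟧)) (Sum.inl v)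
        (Sum.inr 0) = 1 := by
      show (if v = v0 ∧ (0 : Fin (ρ + 1)) = 0 then (1 : k⟦X⟧) else 0) = 1
      rw [if_pos ⟨hv, rfl⟩]
    have h4 : E4m_th k Ξ F S ρ θ z κ e lam M (Sum.inr 0) =
        E4_io k F (ρ + 1) S z + PowerSeries.X ^ (e + 1) *
          (E4_io k F (ρ + 1) S κ * PowerSeries.C (C (X 0))) := rfl
    rw [h0, h1, h2, h3, h4, map_zero, map_one, one_mul, zero_add, zero_add, add_zero, if_pos hv, zh,
      if_pos hv]
  · have h0 : mx0 (ρ := ρ) v0 x0 (Sum.inl v) = x0 v := by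
      show (if v = v0 then 0 else x0 v) = x0 v
      rw [if_neg hv]
    have h2 : ∑ a : Fin ρ, algebraMap k⟦X⟧ (RR F (ρ + 1) S)⟦X⟧
        (mx1 (ρ := ρ) v0 (fun v i => (PowerSeries.C (X1 v i) : k⟦X⟧)) (Sum.inl v)
          (Sum.inr a.succ)) * E4m_th k Ξ F S ρ θ z κ e lam M (Sum.inr a.succ) = 0 := by
      refine Finset.sum_eq_zero fun a _ => ?_
      have : mx1 (ρ := ρ) v0 (fun v i => (PowerSeries.C (X1 v i) : k⟦X⟧)) (Sum.inl v)
          (Sum.inr a.succ) = 0 := by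
        show (if v = v0 ∧ a.succ = 0 then (1 : k⟦X⟧) else 0) = 0
        rw [if_neg fun h => hv h.1]
      rw [this, map_zero, zero_mul]
    have h3 : mx1 (ρ := ρ) v0 (fun v i => (PowerSeries.C (X1 v i) : k⟦X⟧)) (Sum.inl v)
        (Sum.inr 0) = 0 := by
      show (if v = v0 ∧ (0 : Fin (ρ + 1)) = 0 then (1 : k⟦X⟧) else 0) = 0
      rw [if_neg fun h => hv h.1]
    rw [h0, h2, h3, map_zero, zero_mul, add_zero, add_zero, if_neg hv, add_zero, zh, if_neg hv, xh,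
      map_add, map_sum, AlgHom.commutes]
    congr 1
    refine Finset.sum_congr rfl fun j _ => ?_
    have h5 : mx1 (ρ := ρ) v0 (fun v i => (PowerSeries.C (X1 v i) : k⟦X⟧)) (Sum.inl v)
        (Sum.inl j) = PowerSeries.C (X1 v j) := by
      show (if v = v0 then 0 else (PowerSeries.C (X1 v j) : k⟦X⟧)) = _
      rw [if_neg hv]
    have h6 : E4m_th k Ξ F S ρ θ z κ e lam M (Sum.inl j) = PowerSeries.C (C (C (θ j))) := rfl
    rw [h5, h6, E4_io_C, C_mul, C_mul, map_mul, PowerSeries.algebraMap_apply'',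
      PowerSeries.map_C]
    rfl

/-- The new coordinates of the point. -/
theorem E4m_pt2 (S ρ : ℕ) (v0 : V) (x0 : V → k⟦X⟧) (X1 : V → Ξ → k) (θ : Ξ → F) (z κ : F⟦X⟧)
    (e : ℕ) (lam : Fin ρ → F⟦X⟧) (M : Fin ρ → Fin ρ → F⟦X⟧) (a : Fin ρ) :
    algebraMap k⟦X⟧ (RR F (ρ + 1) S)⟦X⟧ (mx0 (ρ := ρ) v0 x0 (Sum.inr a)) +
      ∑ j, algebraMap k⟦X⟧ (RR F (ρ + 1) S)⟦X⟧
        (mx1 (ρ := ρ) v0 (fun v i => (PowerSeries.C (X1 v i) : k⟦X⟧)) (Sum.inr a) j) *
          E4m_th k Ξ F S ρ θ z κ e lam M j =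
      E4_io k F (ρ + 1) S (lam a) +
        ∑ b : Fin ρ, E4_io k F (ρ + 1) S (M a b) * PowerSeries.C (C (X b.succ)) := by
  rw [Fintype.sum_sum_type]
  have h1 : ∑ j : Ξ, algebraMap k⟦X⟧ (RR F (ρ + 1) S)⟦X⟧
      (mx1 (ρ := ρ) v0 (fun v i => (PowerSeries.C (X1 v i) : k⟦X⟧)) (Sum.inr a) (Sum.inl j)) *
        E4m_th k Ξ F S ρ θ z κ e lam M (Sum.inl j) = 0 := by
    refine Finset.sum_eq_zero fun b _ => ?_
    have : mx1 (ρ := ρ) v0 (fun v i => (PowerSeries.C (X1 v i) : k⟦X⟧)) (Sum.inr a)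
        (Sum.inl b) = 0 := rfl
    rw [this, map_zero, zero_mul]
  have h2 : ∑ b : Fin (ρ + 1), algebraMap k⟦X⟧ (RR F (ρ + 1) S)⟦X⟧
      (mx1 (ρ := ρ) v0 (fun v i => (PowerSeries.C (X1 v i) : k⟦X⟧)) (Sum.inr a) (Sum.inr b)) *
        E4m_th k Ξ F S ρ θ z κ e lam M (Sum.inr b) =
        E4m_th k Ξ F S ρ θ z κ e lam M (Sum.inr a.succ) := by
    rw [Finset.sum_eq_single a.succ]
    · have : mx1 (ρ := ρ) v0 (fun v i => (PowerSeries.C (X1 v i) : k⟦X⟧)) (Sum.inr a)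
          (Sum.inr a.succ) = 1 := by
        show (if a.succ = a.succ then (1 : k⟦X⟧) else 0) = 1
        rw [if_pos rfl]
      rw [this, map_one, one_mul]
    · intro b _ hb
      have : mx1 (ρ := ρ) v0 (fun v i => (PowerSeries.C (X1 v i) : k⟦X⟧)) (Sum.inr a)
          (Sum.inr b) = 0 := by
        show (if b = a.succ then (1 : k⟦X⟧) else 0) = 0
        rw [if_neg hb]
      rw [this, map_zero, zero_mul]
    · intro h
      exact absurd (Finset.mem_univ _) h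
  have h3 : mx0 (ρ := ρ) v0 x0 (Sum.inr a) = 0 := rfl
  rw [h1, h2, h3, map_zero, zero_add, zero_add]
  rfl

end

/-- item E4 -/
theorem fm_E4 : FM.StE4 := by
  intro hPH hD2 hD3 hD4 k V Ξ I F _ _ _ _ _ S ρ Q hQ f hf s v0 x0 X1 θ z κ dir e lam M w c hw hc
  set ι := E4_io k F (ρ + 1) S with hι
  obtain ⟨Φ, hΦ1, hΦ2, hΦ3, hΦ4⟩ := hPH k⟦X⟧ (V ⊕ Fin ρ) (Ξ ⊕ Fin (ρ + 1))
    (RR F (ρ + 1) S)⟦X⟧ (S + 1)
    (exQ Q s) (hD4 k⟦X⟧ V S ρ Q s hQ) (exf f s) (hD2 k⟦X⟧ V S ρ Q f s hf) (Fin.last S)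
    (mx0 v0 x0) (mx1 v0 fun v i => PowerSeries.C (X1 v i)) (E4m_th k Ξ F S ρ θ z κ e lam M)
    (algebraMap k⟦X⟧ (RR F (ρ + 1) S)⟦X⟧ (PowerSeries.X ^ (e + 1)))
    (fun j => PowerSeries.C (X (Sum.inl j))) (fun j => PowerSeries.C (X (Sum.inr j)))
  refine ⟨Φ, fun i => ?_, ?_, hΦ2, hΦ3, fun i => ?_⟩
  · rw [hΦ1]
    rfl
  · rw [hΦ1]
    rfl
  · obtain ⟨q, hq⟩ := hΦ4 (Sum.inl (dir i))
    -- the point
    set y : V ⊕ Fin ρ → (RR F (ρ + 1) S)⟦X⟧ := fun v =>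
      algebraMap k⟦X⟧ (RR F (ρ + 1) S)⟦X⟧ (mx0 (ρ := ρ) v0 x0 v) +
        ∑ j, algebraMap k⟦X⟧ (RR F (ρ + 1) S)⟦X⟧
          (mx1 (ρ := ρ) v0 (fun v i => (PowerSeries.C (X1 v i) : k⟦X⟧)) v j) *
            E4m_th k Ξ F S ρ θ z κ e lam M j with hy
    have hp1 : ∀ v : V, y (Sum.inl v) = ι (zh v0 x0 X1 θ z v) +
        if v = v0 then PowerSeries.X ^ (e + 1) * (ι κ * PowerSeries.C (C (X 0))) else 0 :=
      fun v => E4m_pt1 k V Ξ F S ρ v0 x0 X1 θ z κ e lam M v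
    have hp2 : ∀ a : Fin ρ, y (Sum.inr a) =
        ι (lam a) + ∑ b : Fin ρ, ι (M a b) * PowerSeries.C (C (X b.succ)) :=
      fun a => E4m_pt2 k V Ξ F S ρ v0 x0 X1 θ z κ e lam M a
    have hcong : ∀ a : Fin ρ, ∃ r, aeval (fun v => y (Sum.inl v)) (pderiv (dir i) (f (s a))) =
        ι (aeval (zh v0 x0 X1 θ z) (pderiv (dir i) (f (s a)))) + PowerSeries.X ^ (e + 1) * r := by
      intro a
      obtain ⟨r, hr⟩ := H13.aeval_congr_dvd (K := k⟦X⟧) (fun v => ι (zh v0 x0 X1 θ z v))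
        (fun v => y (Sum.inl v)) (PowerSeries.X ^ (e + 1)) (fun v => by
          rw [hp1, add_sub_cancel_left]
          split_ifs
          · exact dvd_mul_right _ _
          · exact dvd_zero _) (pderiv (dir i) (f (s a)))
      refine ⟨r, ?_⟩
      have h1 : ι (aeval (zh v0 x0 X1 θ z) (pderiv (dir i) (f (s a)))) =
          aeval (fun v => ι (zh v0 x0 X1 θ z v)) (pderiv (dir i) (f (s a))) := by
        rw [comp_aeval_apply]
      rw [h1, ← hr]
      ring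
    choose r hr using hcong
    -- the derivative at the point
    have hder : aeval y (pderiv (Sum.inl (dir i)) (exf f s (Fin.last S))) =
        PowerSeries.X ^ e * (ι (w i) + ∑ b : Fin ρ, ι (c b i) * PowerSeries.C (C (X b.succ))) +
          PowerSeries.X ^ (e + 1) * ∑ a, y (Sum.inr a) * r a := by
      rw [hD3, map_sum]
      have hterm : ∀ a : Fin ρ, aeval y
          (X (Sum.inr a) * rename Sum.inl (pderiv (dir i) (f (s a)))) =
          (ι (lam a) + ∑ b : Fin ρ, ι (M a b) * PowerSeries.C (C (X b.succ))) *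
            ι (aeval (zh v0 x0 X1 θ z) (pderiv (dir i) (f (s a)))) +
          PowerSeries.X ^ (e + 1) * (y (Sum.inr a) * r a) := by
        intro a
        rw [map_mul, aeval_X, aeval_rename]
        have h1 : aeval (y ∘ Sum.inl) (pderiv (dir i) (f (s a))) =
            ι (aeval (zh v0 x0 X1 θ z) (pderiv (dir i) (f (s a)))) +
              PowerSeries.X ^ (e + 1) * r a := hr a
        rw [h1, ← hp2]
        ring
      rw [Finset.sum_congr rfl fun a _ => hterm a, Finset.sum_add_distrib, ← Finset.mul_sum]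
      congr 1
      simp only [add_mul, Finset.sum_add_distrib, mul_add]
      congr 1
      · rw [← E4_io_X k F (ρ + 1) S, ← hι, ← map_pow, ← map_mul, hw, map_sum]
        exact Finset.sum_congr rfl fun a _ => (map_mul ι _ _).symm
      · have h5 : ∀ b : Fin ρ, ∑ a : Fin ρ, ι (M a b) *
            ι (aeval (zh v0 x0 X1 θ z) (pderiv (dir i) (f (s a)))) =
            PowerSeries.X ^ e * ι (c b i) := by
          intro b
          rw [← E4_io_X k F (ρ + 1) S, ← hι, ← map_pow, ← map_mul, ← hc b i, map_sum]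
          exact Finset.sum_congr rfl fun a _ => (map_mul ι _ _).symm
        simp only [Finset.sum_mul, Finset.mul_sum]
        rw [Finset.sum_comm]
        refine Finset.sum_congr rfl fun b _ => ?_
        rw [← mul_assoc, ← h5 b, Finset.sum_mul]
        exact Finset.sum_congr rfl fun a _ => by ring
    rw [hder] at hq
    refine ⟨ι (w i) + ∑ b : Fin ρ, ι (c b i) * PowerSeries.C (C (X b.succ)) +
      PowerSeries.X * (q + ∑ a, y (Sum.inr a) * r a), ?_, ?_⟩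
    · rw [E4_al]
      rw [E4_al] at hq
      linear_combination hq
    · rw [map_add, map_add, map_mul, PowerSeries.constantCoeff_X, zero_mul, add_zero, map_sum,
        E4_io_cc, C_add, map_sum]
      congr 1
      refine Finset.sum_congr rfl fun b _ => ?_
      rw [map_mul, E4_io_cc, PowerSeries.constantCoeff_C, C_mul]

end Pool.Agent.Work.MP_499dc6_lc.FM
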