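import Mathlib
import Pool.Agent.Work.MP_499dc6_lc.FM.Stmts

/-!
THEOREM FM, item E5: the values of the polynomials qq.
-/

open MvPolynomial
open scoped PowerSeries

namespace Pool.Agent.Work.MP_499dc6_lc.FM

open Pool.Agent.Work.MP_499dc6_lc.SN
open Pool.Agent.Work.MP_499dc6_lc.FC

theorem E5m_alg (k F : Type) [Field k] [Field F] [Algebra k F] (S ρ : ℕ) (a : k) :
    algebraMap k⟦X⟧ (RR F ρ S)⟦X⟧ (PowerSeries.C a) =
      PowerSeries.C (C (C (algebraMap k F a))) := by
  have h : algebraMap k⟦X⟧ (RR F ρ S)⟦X⟧ (PowerSeries.C a) =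
      PowerSeries.map (algebraMap k (RR F ρ S)) (PowerSeries.C a) := rfl
  rw [h, PowerSeries.map_C]
  rfl

theorem fm_E5 : FM.StE5 := by
  intro k V Ξ F _ _ _ _ _ S ρ v0 x0 X1 θ z d Φ hΦ hΦ0 p
  unfold qq
  have hal : ∀ r : k⟦X⟧, Φ (C r) = algebraMap k⟦X⟧ (RR F (ρ + 1) S)⟦X⟧ r :=
    fun r => Φ.commutes r
  have hpt : ∀ v : V, Φ (ptx (mx0 v0 x0) (mx1 v0 fun v i => PowerSeries.C (X1 v i))
      (Sum.inl v)) =
      E4_io k F (ρ + 1) S (zh v0 x0 X1 θ z v) + if v = v0 then d else 0 := by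
    intro v
    unfold ptx
    rw [map_add, map_sum, Fintype.sum_sum_type, hal]
    by_cases hv : v = v0
    · subst hv
      have e0 : mx0 (ρ := ρ) v x0 (Sum.inl v) = 0 := by simp [mx0]
      have e1 : ∀ i, mx1 (ρ := ρ) v (fun v i => (PowerSeries.C (X1 v i) : k⟦X⟧)) (Sum.inl v)
          (Sum.inl i) = 0 := by
        intro i
        simp [mx1]
      have e2 : ∀ b, mx1 (ρ := ρ) v (fun v i => (PowerSeries.C (X1 v i) : k⟦X⟧)) (Sum.inl v)
          (Sum.inr b) = if b = 0 then 1 else 0 := by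
        intro b
        simp [mx1]
      have s1 : ∑ i : Ξ, Φ (C (mx1 (ρ := ρ) v (fun v i => (PowerSeries.C (X1 v i) : k⟦X⟧))
          (Sum.inl v) (Sum.inl i)) * X (Sum.inl (Sum.inl i))) = 0 := by
        refine Finset.sum_eq_zero fun i _ => ?_
        rw [e1, map_zero, zero_mul, map_zero]
      have s2 : ∑ b : Fin (ρ + 1), Φ (C (mx1 (ρ := ρ) v
          (fun v i => (PowerSeries.C (X1 v i) : k⟦X⟧))
          (Sum.inl v) (Sum.inr b)) * X (Sum.inl (Sum.inr b))) = E4_io k F (ρ + 1) S z + d := by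
        rw [Finset.sum_eq_single 0]
        · rw [e2, if_pos rfl, map_one, one_mul, hΦ0]
        · intro b _ hb
          rw [e2, if_neg hb, map_zero, zero_mul, map_zero]
        · intro hb
          exact absurd (Finset.mem_univ _) hb
      rw [s1, s2, e0, map_zero, zero_add, zero_add]
      simp [zh]
    · have e0 : mx0 (ρ := ρ) v0 x0 (Sum.inl v) = x0 v := by simp [mx0, hv]
      have e1 : ∀ i, mx1 (ρ := ρ) v0 (fun v i => (PowerSeries.C (X1 v i) : k⟦X⟧)) (Sum.inl v)
          (Sum.inl i) = PowerSeries.C (X1 v i) := by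
        intro i
        simp [mx1, hv]
      have e2 : ∀ b, mx1 (ρ := ρ) v0 (fun v i => (PowerSeries.C (X1 v i) : k⟦X⟧)) (Sum.inl v)
          (Sum.inr b) = 0 := by
        intro b
        simp [mx1, hv]
      have s1 : ∑ i : Ξ, Φ (C (mx1 (ρ := ρ) v0 (fun v i => (PowerSeries.C (X1 v i) : k⟦X⟧))
          (Sum.inl v) (Sum.inl i)) * X (Sum.inl (Sum.inl i))) =
          ∑ i : Ξ, E4_io k F (ρ + 1) S (PowerSeries.C (algebraMap k F (X1 v i) * θ i)) := by
        refine Finset.sum_congr rfl fun i _ => ?_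
        rw [e1, map_mul, hal, hΦ, E5m_alg, E4_io_C, C_mul, C_mul, map_mul]
      have s2 : ∑ b : Fin (ρ + 1), Φ (C (mx1 (ρ := ρ) v0
          (fun v i => (PowerSeries.C (X1 v i) : k⟦X⟧))
          (Sum.inl v) (Sum.inr b)) * X (Sum.inl (Sum.inr b))) = 0 := by
        refine Finset.sum_eq_zero fun b _ => ?_
        rw [e2, map_zero, zero_mul, map_zero]
      rw [s1, s2, e0, add_zero, if_neg hv, add_zero, zh, if_neg hv, xh, map_add, map_sum,
        AlgHom.commutes]
  induction p using MvPolynomial.induction_on with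
  | C a =>
    rw [aeval_C, aeval_C]
    exact Φ.commutes _
  | add p q hp hq =>
    simp only [map_add] at hp hq ⊢
    rw [hp, hq]
  | mul_X p v hp =>
    simp only [map_mul, aeval_X] at hp ⊢
    rw [hp, hpt]

end Pool.Agent.Work.MP_499dc6_lc.FM
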