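import Mathlib
import Pool.Agent.Work.MP_499dc6_lc.FM.Stmts

/-!
THEOREM FM, item F1: the weight of `qq`.
-/

namespace Pool.Agent.Work.MP_499dc6_lc.FM

open MvPolynomial
open scoped PowerSeries
open Pool.Agent.Work.MP_499dc6_lc.SN
open Pool.Agent.Work.MP_499dc6_lc.FC

theorem fm_F1 : FM.StF1 := by
  intro hW1 hW2 O V Ξ _ _ _ _ S ρ v0 x0 x1 p n a a' hp
  obtain ⟨hC, hX, hmono, hadd, -, hmul⟩ := hW1 O (Var (Ξ ⊕ Fin (ρ + 1)) (S + 1)) (wv a a')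
  obtain ⟨hsum, hpow, hprod⟩ := hW2 O (Var (Ξ ⊕ Fin (ρ + 1)) (S + 1)) (wv a a')
  have hpt : ∀ v : V ⊕ Fin ρ, WD (wv a a') 1
      (ptx (mx0 v0 x0) (mx1 v0 x1) v : MvPolynomial (Var (Ξ ⊕ Fin (ρ + 1)) (S + 1)) O) := by
    intro v
    unfold ptx
    refine hadd 1 _ _ (hC 1 _) (hsum (Ξ ⊕ Fin (ρ + 1)) Finset.univ 1 _ fun i _ => ?_)
    have h1 := hmul 0 1 _ _ (hC 0 (mx1 v0 x1 v i)) (hX 1 (Sum.inl i) (le_refl 1))
    rwa [zero_add] at h1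
  have he : qq (ρ := ρ) (S := S) v0 x0 x1 p = ∑ μ ∈ p.support, C (p.coeff μ) *
      ∏ v, (ptx (mx0 v0 x0) (mx1 v0 x1) (Sum.inl v) :
        MvPolynomial (Var (Ξ ⊕ Fin (ρ + 1)) (S + 1)) O) ^ μ v := by
    unfold qq
    rw [aeval_def, eval₂_eq']
    rfl
  rw [he]
  refine hsum _ _ n _ fun μ hμ => ?_
  have h1 := hprod V Finset.univ (fun v => 1 * μ v) _
    fun v _ => hpow _ (μ v) _ (hpt (Sum.inl v))
  have h2 := hmul 0 _ _ _ (hC 0 (p.coeff μ)) h1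
  refine hmono _ n _ h2 ?_
  rw [zero_add]
  simp only [one_mul]
  have h3 := MvPolynomial.le_totalDegree hμ
  rw [Finsupp.sum_fintype _ _ (fun _ => rfl)] at h3
  exact h3.trans hp

end Pool.Agent.Work.MP_499dc6_lc.FM
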