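import Mathlib
import Pool.Agent.Work.MP_499dc6_lc.FM.Stmts

/-!
Item L1 of block FM: pseudo-division by a polynomial which is linear in one variable.
-/

set_option autoImplicit false

namespace Pool.Agent.Work.MP_499dc6_lc.FM

open MvPolynomial
open scoped PowerSeries
open Pool.Agent.Work.MP_499dc6_lc.SN
open Pool.Agent.Work.MP_499dc6_lc.FC

theorem L1m_kill_X {k V : Type} [CommRing k] [DecidableEq V] (v0 v : V) :
    kill v0 (X v : MvPolynomial V k) = if v = v0 then 0 else X v := by
  simp [kill]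

theorem L1m_kill_C {k V : Type} [CommRing k] [DecidableEq V] (v0 : V) (a : k) :
    kill v0 (C a : MvPolynomial V k) = C a := by
  simp [kill]

/-- **L1** -/
theorem fm_L1 : FM.StL1 := by
  intro k V _ _ v0 P hP F
  obtain ⟨hA, hPe⟩ := hP
  have hB : kill v0 (kill v0 P) = kill v0 P := by
    have h := congrArg (kill v0) hPe
    rw [map_add, map_mul, hA, L1m_kill_X, if_pos rfl, mul_zero, zero_add] at h
    exact h.symm
  generalize pderiv v0 P = A at hA hPe ⊢
  generalize kill v0 P = B at hB hPe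
  induction F using MvPolynomial.induction_on with
  | C a => exact ⟨0, 0, C a, L1m_kill_C v0 a, by simp⟩
  | add F1 F2 h1 h2 =>
    obtain ⟨N1, c1, g1, k1, e1⟩ := h1
    obtain ⟨N2, c2, g2, k2, e2⟩ := h2
    refine ⟨N1 + N2, A ^ N2 * c1 + A ^ N1 * c2, A ^ N2 * g1 + A ^ N1 * g2, ?_, ?_⟩
    · rw [map_add, map_mul, map_mul, map_pow, map_pow, hA, k1, k2]
    · rw [pow_add]
      linear_combination A ^ N2 * e1 + A ^ N1 * e2
  | mul_X F v h1 =>
    obtain ⟨N, c, g, k1, e1⟩ := h1
    by_cases hv : v = v0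
    · subst hv
      refine ⟨N + 1, c * A * X v + g, - (g * B), ?_, ?_⟩
      · rw [map_neg, map_mul, k1, hB]
      · rw [pow_succ]
        linear_combination A * X v * e1 - g * hPe
    · refine ⟨N, c * X v, g * X v, ?_, ?_⟩
      · rw [map_mul, k1, L1m_kill_X, if_neg hv]
      · linear_combination X v * e1

end Pool.Agent.Work.MP_499dc6_lc.FM
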