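import Mathlib
import Pool.Agent.Work.MP_499dc6_lc.FM.Stmts

/-!
Block FM, item L3 (helper91): the gradient.
-/

namespace Pool.Agent.Work.MP_499dc6_lc.FM

open MvPolynomial
open scoped PowerSeries

open Pool.Agent.Work.MP_499dc6_lc.SN
open Pool.Agent.Work.MP_499dc6_lc.FC

theorem L3m_id {R : Type} [CommRing R] (D : R → R) (hmul : ∀ a b, D (a * b) = a * D b + b * D a)
    (hpow : ∀ (a : R) (n : ℕ), D (a ^ n) = n * (a ^ (n - 1) * D a))
    (A P F c h : R) (N e : ℕ) (E : A ^ N * F = P ^ (e + 1) * (P * c + h)) :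
    A ^ (N + 1) * D F = P ^ e * (((e + 1 : ℕ) : R) * A * h * D P +
      P * (((e + 1 : ℕ) : R) * A * c * D P + A * D (P * c + h) - N * (P * c + h) * D A)) := by
  have hD := congrArg D E
  rw [hmul, hmul, hpow, hpow, Nat.add_sub_cancel] at hD
  rcases N with _ | n
  · simp only [Nat.cast_zero, zero_mul, mul_zero, add_zero, pow_zero, one_mul, sub_zero,
      zero_add, pow_one] at hD ⊢
    linear_combination A * hD
  · rw [Nat.add_sub_cancel] at hD
    linear_combination A * hD - ((n + 1 : ℕ) : R) * D A * E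

/-- item L3 -/
theorem fm_L3 : FM.StL3 := by
  intro k V _ _ _ v0 P F hA hA0 N e c h hh hh0 E
  refine ⟨((e + 1 : ℕ) : MvPolynomial V k) * pderiv v0 P * h, fun u =>
    ((e + 1 : ℕ) : MvPolynomial V k) * pderiv v0 P * c * pderiv u P +
      pderiv v0 P * pderiv u (P * c + h) - N * (P * c + h) * pderiv u (pderiv v0 P), ?_, ?_, ?_⟩
  · rw [map_mul, map_mul, map_natCast, hA, hh]
  · refine mul_ne_zero (mul_ne_zero ?_ hA0) hh0
    rw [← map_natCast (C : k →+* MvPolynomial V k), Ne, C_eq_zero]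
    exact Nat.cast_ne_zero.2 (Nat.succ_ne_zero e)
  · intro u
    refine L3m_id (fun a => pderiv u a) ?_ ?_ (pderiv v0 P) P F c h N e E
    · intro a b
      rw [Derivation.leibniz, smul_eq_mul, smul_eq_mul]
    · intro a n
      rw [Derivation.leibniz_pow, nsmul_eq_mul, smul_eq_mul]

end Pool.Agent.Work.MP_499dc6_lc.FM
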