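import Pool.Agent.Work.MP_499dc6_lc.FM.Stmts

/-!
Item LK of THEOREM FM: the value of a polynomial which does not contain `v0` does not depend on the
coordinate `v0` of the point.
-/

namespace Pool.Agent.Work.MP_499dc6_lc.FM

open MvPolynomial
open scoped PowerSeries
open Pool.Agent.Work.MP_499dc6_lc.SN
open Pool.Agent.Work.MP_499dc6_lc.FC

/-- The value of `kill v0 h` at `x`. -/
theorem LK_aux {O V A : Type} [CommRing O] [CommRing A] [Algebra O A] [DecidableEq V] (v0 : V)
    (h : MvPolynomial V O) (x : V → A) :
    aeval x (kill v0 h) = aeval (fun v => if v = v0 then 0 else x v) h := by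
  unfold kill
  rw [comp_aeval_apply]
  have hf : (fun v => aeval x (if v = v0 then (0 : MvPolynomial V O) else X v)) =
      fun v => if v = v0 then (0 : A) else x v := by
    funext v
    by_cases hv : v = v0
    · rw [if_pos hv, if_pos hv, map_zero]
    · rw [if_neg hv, if_neg hv, aeval_X]
  rw [hf]

theorem fm_LK : FM.StLK := by
  intro O V A _ _ _ _ v0 h hk x x' hx
  have hf : (fun v => if v = v0 then (0 : A) else x v) =
      fun v => if v = v0 then (0 : A) else x' v := by
    funext v
    by_cases hv : v = v0
    · rw [if_pos hv, if_pos hv]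
    · rw [if_neg hv, if_neg hv, hx v hv]
  rw [← hk, LK_aux, LK_aux, hf]

end Pool.Agent.Work.MP_499dc6_lc.FM
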