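import Mathlib
import Pool.Agent.Work.MP_499dc6_lc.FM.Stmts

/-!
Item LM: change of coefficients commutes with setting a variable to zero.
-/

namespace Pool.Agent.Work.MP_499dc6_lc.FM

open MvPolynomial
open scoped PowerSeries
open Pool.Agent.Work.MP_499dc6_lc.SN
open Pool.Agent.Work.MP_499dc6_lc.FC

theorem LMm_kill {O O' V : Type} [CommRing O] [CommRing O'] [DecidableEq V] (φ : O →+* O') (v0 : V)
    (p : MvPolynomial V O) :
    kill v0 (MvPolynomial.map φ p) = MvPolynomial.map φ (kill v0 p) := by
  unfold kill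
  induction p using MvPolynomial.induction_on with
  | C a => simp [MvPolynomial.algebraMap_eq]
  | add p q hp hq => rw [map_add, map_add, map_add, map_add, hp, hq]
  | mul_X p v hp =>
    rw [map_mul, map_mul, map_mul, map_mul, hp, map_X, aeval_X, aeval_X]
    congr 1
    by_cases h : v = v0
    · rw [if_pos h, if_pos h, map_zero]
    · rw [if_neg h, if_neg h, map_X]

theorem fm_LM : FM.StLM := by
  intro O O' V _ _ _ φ v0
  refine ⟨fun p => LMm_kill φ v0 p, ?_⟩
  rintro P ⟨h1, h2⟩
  refine ⟨?_, ?_⟩
  · rw [pderiv_map, LMm_kill, h1]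
  · have h3 := congrArg (MvPolynomial.map φ) h2
    rw [map_add, map_mul, map_X] at h3
    rw [pderiv_map, LMm_kill]
    exact h3

end Pool.Agent.Work.MP_499dc6_lc.FM
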