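import Mathlib
import Pool.Agent.Work.MP_499dc6_lc.FM.Stmts

/-!
THEOREM FM, item LP: the permanent is linear in every variable.
-/

namespace Pool.Agent.Work.MP_499dc6_lc.FM

open MvPolynomial
open scoped PowerSeries
open Pool.Agent.Work.MP_499dc6_lc.SN
open Pool.Agent.Work.MP_499dc6_lc.FC

theorem LPm_zero {O V : Type} [CommRing O] [DecidableEq V] (v0 : V) :
    Lin v0 (0 : MvPolynomial V O) := by
  refine ⟨?_, ?_⟩
  · rw [map_zero, map_zero]
  · rw [map_zero, map_zero, zero_mul, add_zero]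

theorem LPm_add {O V : Type} [CommRing O] [DecidableEq V] (v0 : V) {P Q : MvPolynomial V O}
    (hP : Lin v0 P) (hQ : Lin v0 Q) : Lin v0 (P + Q) := by
  refine ⟨?_, ?_⟩
  · rw [map_add, map_add, hP.1, hQ.1]
  · have h1 := hP.2
    have h2 := hQ.2
    rw [map_add, map_add]
    linear_combination h1 + h2

theorem LPm_sum {O V ι : Type} [CommRing O] [DecidableEq V] (v0 : V) (s : Finset ι)
    (P : ι → MvPolynomial V O) (h : ∀ i ∈ s, Lin v0 (P i)) : Lin v0 (∑ i ∈ s, P i) := by
  classical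
  induction s using Finset.induction_on with
  | empty =>
    rw [Finset.sum_empty]
    exact LPm_zero v0
  | insert a s ha ih =>
    rw [Finset.sum_insert ha]
    exact LPm_add v0 (h a (Finset.mem_insert_self a s))
      (ih fun i hi => h i (Finset.mem_insert_of_mem hi))

theorem LPm_kill {O V ι : Type} [CommRing O] [DecidableEq V] (v0 : V) (s : Finset ι)
    (f : ι → V) (h : ∀ i ∈ s, f i ≠ v0) :
    kill v0 (∏ i ∈ s, (X (f i) : MvPolynomial V O)) = ∏ i ∈ s, X (f i) := by
  rw [map_prod]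
  refine Finset.prod_congr rfl fun i hi => ?_
  rw [kill, aeval_X, if_neg (h i hi)]

theorem LPm_pderiv {O V ι : Type} [CommRing O] [DecidableEq V] (v0 : V) (s : Finset ι)
    (f : ι → V) (h : ∀ i ∈ s, f i ≠ v0) :
    pderiv v0 (∏ i ∈ s, (X (f i) : MvPolynomial V O)) = 0 := by
  classical
  induction s using Finset.induction_on with
  | empty => rw [Finset.prod_empty, Derivation.map_one_eq_zero]
  | insert a s ha ih =>
    rw [Finset.prod_insert ha, Derivation.leibniz,
      ih fun i hi => h i (Finset.mem_insert_of_mem hi),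
      pderiv_X_of_ne (h a (Finset.mem_insert_self a s)), smul_zero, smul_zero, add_zero]

theorem LPm_free {O V ι : Type} [CommRing O] [DecidableEq V] (v0 : V) (s : Finset ι)
    (f : ι → V) (h : ∀ i ∈ s, f i ≠ v0) : Lin v0 (∏ i ∈ s, (X (f i) : MvPolynomial V O)) := by
  refine ⟨?_, ?_⟩
  · rw [LPm_pderiv v0 s f h, map_zero]
  · rw [LPm_pderiv v0 s f h, LPm_kill v0 s f h, zero_mul, zero_add]

theorem LPm_one {O V ι : Type} [CommRing O] [DecidableEq V] (v0 : V) (s : Finset ι)
    (f : ι → V) (h : ∀ i ∈ s, f i ≠ v0) :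
    Lin v0 (X v0 * ∏ i ∈ s, (X (f i) : MvPolynomial V O)) := by
  have h1 : pderiv v0 (X v0 * ∏ i ∈ s, (X (f i) : MvPolynomial V O)) = ∏ i ∈ s, X (f i) := by
    rw [Derivation.leibniz, LPm_pderiv v0 s f h, pderiv_X_self, smul_zero, zero_add, smul_eq_mul,
      mul_one]
  have h2 : kill v0 (X v0 : MvPolynomial V O) = 0 := by
    rw [kill, aeval_X, if_pos rfl]
  refine ⟨?_, ?_⟩
  · rw [h1, LPm_kill v0 s f h]
  · rw [h1, map_mul, h2, zero_mul, add_zero, mul_comm]

/-- Item LP. -/
theorem fm_LP : FM.StLP := by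
  intro k _ m v0
  have e : H97.permP m k =
      ∑ σ : Equiv.Perm (Fin m), ∏ i, (X (σ i, i) : MvPolynomial (Fin m × Fin m) k) := rfl
  rw [e]
  refine LPm_sum v0 _ _ fun σ _ => ?_
  by_cases hσ : σ v0.2 = v0.1
  · rw [← Finset.mul_prod_erase Finset.univ _ (Finset.mem_univ v0.2)]
    have e1 : (σ v0.2, v0.2) = v0 := Prod.ext hσ rfl
    rw [e1]
    refine LPm_one v0 _ (fun i => (σ i, i)) fun i hi h => ?_
    exact (Finset.mem_erase.1 hi).1 (congrArg Prod.snd h)
  · refine LPm_free v0 _ (fun i => (σ i, i)) fun i _ h => hσ ?_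
    have h1 : i = v0.2 := congrArg Prod.snd h
    have h2 : σ i = v0.1 := congrArg Prod.fst h
    rw [← h1, h2]

end Pool.Agent.Work.MP_499dc6_lc.FM
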