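import Mathlib
import Pool.Agent.Work.MP_499dc6_lc.FM.Stmts

/-!
Item LT of THEOREM FM.
-/

namespace Pool.Agent.Work.MP_499dc6_lc.FM

open MvPolynomial
open scoped PowerSeries
open Pool.Agent.Work.MP_499dc6_lc.SN
open Pool.Agent.Work.MP_499dc6_lc.FC

lemma LTm_kill_kill {O V : Type} [CommRing O] [DecidableEq V] (v0 : V) (P : MvPolynomial V O) :
    kill v0 (kill v0 P) = kill v0 P := by
  have h : (kill (O := O) v0).comp (kill v0) = kill v0 := by
    refine MvPolynomial.algHom_ext ?_
    intro v
    by_cases hv : v = v0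
    · simp [kill, hv]
    · simp [kill, hv]
  exact DFunLike.congr_fun h P

theorem fm_LT : FM.StLT := by
  intro hLK O V A _ _ _ _ v0 P hP x d
  obtain ⟨h1, h2⟩ := hP
  have hx : ∀ v, v ≠ v0 → (fun v => x v + if v = v0 then d else 0) v = x v := by
    intro v hv
    simp [hv]
  have e1 := hLK O V A v0 _ h1 _ _ hx
  have e2 := hLK O V A v0 _ (LTm_kill_kill v0 P) _ _ hx
  have key : ∀ y : V → A, aeval y P = aeval y (pderiv v0 P) * y v0 + aeval y (kill v0 P) := by
    intro y
    have h3 := congrArg (aeval y) h2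
    rw [map_add, map_mul, aeval_X] at h3
    exact h3
  rw [key (fun v => x v + if v = v0 then d else 0), key x, e1, e2]
  simp only [if_true]
  ring

end Pool.Agent.Work.MP_499dc6_lc.FM
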