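import Mathlib
import Pool.Agent.Work.MP_499dc6_lc.FM.Stmts
import Pool.Agent.Work.MP_499dc6_lc.FC.I_N8

/-!
# Block FM, item N8: the final numbers
-/

set_option autoImplicit false

namespace Pool.Agent.Work.MP_499dc6_lc.FM

open MvPolynomial
open scoped PowerSeries
open Pool.Agent.Work.MP_499dc6_lc.SN
open Pool.Agent.Work.MP_499dc6_lc.FC

theorem N8m_sq : ∀ k : ℕ, 2268 ≤ k → (3 : ℝ) * (k : ℝ) ^ 2 ≤ 1.01 ^ k := by
  intro k hk
  induction k, hk using Nat.le_induction with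
  | base =>
    have h1 : (2 : ℝ) ≤ 1.01 ^ 70 := by norm_num
    have h2 : (2 : ℝ) ^ 32 ≤ (1.01 ^ 70) ^ 32 := pow_le_pow_left₀ (by norm_num) h1 32
    have h3 : ((1.01 : ℝ) ^ 70) ^ 32 ≤ 1.01 ^ 2268 := by
      rw [← pow_mul]
      exact pow_le_pow_right₀ (by norm_num) (by norm_num)
    have h4 : (3 : ℝ) * ((2268 : ℕ) : ℝ) ^ 2 ≤ 2 ^ 32 := by norm_num
    exact h4.trans (h2.trans h3)
  | succ n hn ih =>
    have hn' : (2268 : ℝ) ≤ n := by exact_mod_cast hn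
    have h1 : ((n + 1 : ℕ) : ℝ) ^ 2 ≤ 1.01 * (n : ℝ) ^ 2 := by
      push_cast
      nlinarith
    calc (3 : ℝ) * ((n + 1 : ℕ) : ℝ) ^ 2 ≤ 1.01 * (3 * (n : ℝ) ^ 2) := by linarith
      _ ≤ 1.01 * 1.01 ^ n := by linarith
      _ = 1.01 ^ (n + 1) := by ring

/-- the factor of the number of the new coordinates -/
theorem N8m_ek {k : ℕ} (hk : 2268 ≤ k) (m : ℝ) (hm : 0 ≤ m) (hmk : m ≤ k) :
    Real.exp 1 * (k : ℝ) * m ≤ 1.01 ^ k := by
  have h3 : Real.exp 1 ≤ 3 := by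
    have := Real.exp_one_lt_d9
    linarith
  have hk0 : (0 : ℝ) ≤ k := Nat.cast_nonneg k
  calc Real.exp 1 * (k : ℝ) * m ≤ 3 * (k : ℝ) * k := by
        apply mul_le_mul _ hmk hm (by positivity)
        exact mul_le_mul_of_nonneg_right h3 hk0
    _ = 3 * (k : ℝ) ^ 2 := by ring
    _ ≤ 1.01 ^ k := N8m_sq k hk

theorem fm_N8 : FM.StN8 := by
  intro m a S t r hm ht ha1 ha2 hmain
  have ht' : (1 : ℝ) ≤ t := by exact_mod_cast ht
  have hm' : (1 : ℝ) ≤ m := by exact_mod_cast hm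
  have hm0 : (0 : ℝ) < m := by linarith
  have hx0 : 0 ≤ 28 * (r : ℝ) / (m : ℝ) ^ 2 := by positivity
  have hbase : (1 : ℝ) ≤ 1 + 160 * (S + 1) / (t * (m : ℝ) ^ 2) := by
    have : (0 : ℝ) ≤ 160 * ((S : ℝ) + 1) / (t * (m : ℝ) ^ 2) := by positivity
    linarith
  have hone : (1 : ℝ) ≤ (1 + 160 * (S + 1) / (t * (m : ℝ) ^ 2)) ^ t := one_le_pow₀ hbase
  have hle := N8_rpow_le (m : ℝ) (28 * (r : ℝ) / (m : ℝ) ^ 2) hm' hx0
  by_cases hm250 : m ≤ 250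
  · have : (m : ℝ) ≤ 250 := by exact_mod_cast hm250
    linarith
  have ha : 27 ≤ a := by omega
  have ha' : (27 : ℝ) ≤ a := by exact_mod_cast ha
  have hma : (m : ℝ) ≤ 9 * a + 9 := by exact_mod_cast ha2
  have h1 := hmain (by omega)
  set k : ℕ := 3 * a * (a + 1) with hk
  have hkR : (k : ℝ) = 3 * a * (a + 1) := by rw [hk]; push_cast; ring
  have hk2268 : 2268 ≤ k := by
    rw [hk]
    calc 2268 = 3 * 27 * (27 + 1) := by norm_num
      _ ≤ 3 * a * (a + 1) := Nat.mul_le_mul (Nat.mul_le_mul_left 3 ha) (by omega)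
  have hk0 : (0 : ℝ) < k := by
    have : 0 < k := by omega
    exact_mod_cast this
  have hS0 : (0 : ℝ) ≤ ((S + 1 : ℕ) : ℝ) := by positivity
  set Y : ℝ := (1 + 5.5 * (((S + 1 : ℕ) : ℝ) / (k : ℝ)) / t) ^ t with hY
  have hY1 : 1 ≤ Y := by
    apply one_le_pow₀
    have : (0 : ℝ) ≤ 5.5 * (((S + 1 : ℕ) : ℝ) / (k : ℝ)) / t := by positivity
    linarith
  have hE := Real.exp_pos 2
  have hE2 := N8_exp2
  have h6 : (m : ℝ) ^ 2 ≤ 28 * k := by
    rw [hkR]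
    have : (m : ℝ) ^ 2 ≤ (9 * a + 9) ^ 2 := pow_le_pow_left₀ (by linarith) hma 2
    nlinarith
  have hmm : (0 : ℝ) < (m : ℝ) ^ 2 := by positivity
  have htt : (0 : ℝ) < t := by linarith
  have hmk : (m : ℝ) ≤ k := by
    rw [hkR]
    nlinarith
  have h7 : Y ≤ (1 + 160 * (S + 1) / (t * (m : ℝ) ^ 2)) ^ t := by
    apply pow_le_pow_left₀ (by positivity)
    have : 5.5 * (((S + 1 : ℕ) : ℝ) / (k : ℝ)) / t ≤ 160 * (S + 1) / (t * (m : ℝ) ^ 2) := by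
      have e : 5.5 * (((S + 1 : ℕ) : ℝ) / (k : ℝ)) / t = (5.5 * ((S : ℝ) + 1)) / (k * t) := by
        push_cast
        field_simp
      rw [e, div_le_div_iff₀ (by positivity) (by positivity)]
      have h8 : 5.5 * (m : ℝ) ^ 2 ≤ 160 * k := by linarith
      calc 5.5 * ((S : ℝ) + 1) * ((t : ℝ) * (m : ℝ) ^ 2)
          = (((S : ℝ) + 1) * t) * (5.5 * (m : ℝ) ^ 2) := by ring
        _ ≤ (((S : ℝ) + 1) * t) * (160 * k) := mul_le_mul_of_nonneg_left h8 (by positivity)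
        _ = 160 * ((S : ℝ) + 1) * ((k : ℝ) * t) := by ring
    linarith
  have hZ : 3 * Real.exp 2 * Y ≤ 22.2 * Y :=
    mul_le_mul_of_nonneg_right (by linarith) (by linarith)
  rcases le_total (m : ℝ) (3 * Real.exp 2 * Y) with hcase | hcase
  · linarith
  · rw [max_eq_right hcase] at h1
    set x : ℝ := 28 * (r : ℝ) / (m : ℝ) ^ 2 with hx
    have hmx : 0 < (m : ℝ) ^ x := Real.rpow_pos_of_pos hm0 x
    have h8 : (m : ℝ) ^ r ≤ ((m : ℝ) ^ x) ^ k := by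
      rw [← Real.rpow_natCast ((m : ℝ) ^ x) k, ← Real.rpow_mul hm0.le, ← Real.rpow_natCast]
      apply Real.rpow_le_rpow_of_exponent_le hm'
      rw [hx, div_mul_eq_mul_div, le_div_iff₀ hmm]
      have hr : (0 : ℝ) ≤ r := Nat.cast_nonneg r
      nlinarith
    have h2 : (a : ℝ) ^ k ≤ (1.01 * (3 * Real.exp 2 * Y) * (m : ℝ) ^ x) ^ k := by
      rw [mul_pow, mul_pow]
      refine h1.trans ?_
      have e1 : Real.exp 1 * (k : ℝ) * (3 * Real.exp 2 * Y) ^ k * (m : ℝ) ^ (r + 1) =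
          (Real.exp 1 * (k : ℝ) * m) * (3 * Real.exp 2 * Y) ^ k * (m : ℝ) ^ r := by ring
      rw [e1]
      refine mul_le_mul ?_ h8 (by positivity) (by positivity)
      exact mul_le_mul_of_nonneg_right (N8m_ek hk2268 _ hm0.le hmk) (by positivity)
    have h3 : (a : ℝ) ≤ 1.01 * (3 * Real.exp 2 * Y) * (m : ℝ) ^ x :=
      le_of_pow_le_pow_left₀ (by omega) (by positivity) h2
    have h4 : (a : ℝ) ≤ 22.422 * Y * (m : ℝ) ^ x := by
      refine h3.trans (mul_le_mul_of_nonneg_right ?_ hmx.le)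
      linarith
    have h5 : (m : ℝ) ≤ 250 * Y * (m : ℝ) ^ x := by
      have h9 : (m : ℝ) ≤ 28 / 3 * a := by linarith
      have h10 : 0 ≤ Y * (m : ℝ) ^ x := by positivity
      nlinarith
    have h11 : (m : ℝ) ^ (1 - x) ≤ 250 * Y := by
      rw [Real.rpow_sub hm0, Real.rpow_one, div_le_iff₀ hmx]
      exact h5
    linarith

end Pool.Agent.Work.MP_499dc6_lc.FM
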