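import Mathlib
import Pool.Agent.Work.MP_499dc6_lc.FM.Stmts

/-!
THEOREM FM, P1: the point where the value of the polynomial is a given small power series.
-/

open MvPolynomial
open scoped PowerSeries

namespace Pool.Agent.Work.MP_499dc6_lc.FM

open Pool.Agent.Work.MP_499dc6_lc.SN
open Pool.Agent.Work.MP_499dc6_lc.FC

theorem P1m_kill_kill {O V : Type} [CommRing O] [DecidableEq V] (v0 : V) (P : MvPolynomial V O) :
    kill v0 (kill v0 P) = kill v0 P := by
  unfold kill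
  rw [comp_aeval_apply]
  congr 2
  funext v
  by_cases h : v = v0
  · simp [h]
  · simp [h]

theorem P1m_map (k V : Type) [Field k] (A : MvPolynomial V k) :
    MvPolynomial.map PowerSeries.constantCoeff (MvPolynomial.map (PowerSeries.C (R := k)) A) = A := by
  rw [MvPolynomial.map_map]
  have h : (PowerSeries.constantCoeff (R := k)).comp (PowerSeries.C (R := k)) = RingHom.id k := by
    ext a
    simp
  rw [h, MvPolynomial.map_id]

theorem fm_P1 : FM.StP1 := by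
  intro hLK hLM k V Ξ Τ I _ _ _ _ _ _ _ P dp hP x0 hx0 hT
  have hkA : kill dp.v0 (MvPolynomial.map (PowerSeries.C (R := k)) (pderiv dp.v0 P)) =
      MvPolynomial.map PowerSeries.C (pderiv dp.v0 P) := by
    rw [(hLM k k⟦X⟧ V PowerSeries.C dp.v0).1, hP.1]
  have hkB : kill dp.v0 (MvPolynomial.map (PowerSeries.C (R := k)) (kill dp.v0 P)) =
      MvPolynomial.map PowerSeries.C (kill dp.v0 P) := by
    rw [(hLM k k⟦X⟧ V PowerSeries.C dp.v0).1, P1m_kill_kill]
  set a : (F0 k Ξ)⟦X⟧ := aeval (zh dp.v0 x0 dp.X1 (th0 k) 0)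
    (MvPolynomial.map PowerSeries.C (pderiv dp.v0 P)) with ha
  set b : (F0 k Ξ)⟦X⟧ := aeval (zh dp.v0 x0 dp.X1 (th0 k) 0)
    (MvPolynomial.map PowerSeries.C (kill dp.v0 P)) with hb
  have hza : ∀ z : (F0 k Ξ)⟦X⟧, aeval (zh dp.v0 x0 dp.X1 (th0 k) z)
      (MvPolynomial.map PowerSeries.C (pderiv dp.v0 P)) = a := fun z =>
    hLK k⟦X⟧ V (F0 k Ξ)⟦X⟧ dp.v0 _ hkA _ _ (fun v hv => by simp [zh, hv])
  have hzb : ∀ z : (F0 k Ξ)⟦X⟧, aeval (zh dp.v0 x0 dp.X1 (th0 k) z)
      (MvPolynomial.map PowerSeries.C (kill dp.v0 P)) = b := fun z =>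
    hLK k⟦X⟧ V (F0 k Ξ)⟦X⟧ dp.v0 _ hkB _ _ (fun v hv => by simp [zh, hv])
  -- the constant coefficients
  have hc0 : ∀ f : k⟦X⟧, PowerSeries.constantCoeff (algebraMap k⟦X⟧ (F0 k Ξ)⟦X⟧ f) =
      algebraMap k (F0 k Ξ) (PowerSeries.constantCoeff f) := by
    intro f
    rw [PowerSeries.algebraMap_apply'', ← PowerSeries.coeff_zero_eq_constantCoeff_apply,
      PowerSeries.coeff_map, PowerSeries.coeff_zero_eq_constantCoeff_apply]
  have hcz : ∀ (z : (F0 k Ξ)⟦X⟧) (v : V), v ≠ dp.v0 →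
      PowerSeries.constantCoeff (zh dp.v0 x0 dp.X1 (th0 k) z v) =
        algebraMap (H13.TR k Ξ) (F0 k Ξ) (H13.xT dp v) := by
    intro z v hv
    rw [zh, if_neg hv, xh, map_add, map_sum, hc0, hx0 v hv, H13.xT_eq, map_add, map_sum]
    simp only [map_mul, ← IsScalarTower.algebraMap_apply, th0, PowerSeries.constantCoeff_C]
  have hev : ∀ Q : MvPolynomial V k, kill dp.v0 Q = Q →
      kill dp.v0 (MvPolynomial.map (PowerSeries.C (R := k)) Q) = MvPolynomial.map PowerSeries.C Q →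
      PowerSeries.constantCoeff (aeval (zh dp.v0 x0 dp.X1 (th0 k) (0 : (F0 k Ξ)⟦X⟧))
        (MvPolynomial.map PowerSeries.C Q)) =
        algebraMap (H13.TR k Ξ) (F0 k Ξ) (aeval (H13.xT dp) Q) := by
    intro Q hQ _
    rw [H13.const_aeval, P1m_map, ← MvPolynomial.aeval_algebraMap_apply (F0 k Ξ) (H13.xT dp) Q]
    exact hLK k V (F0 k Ξ) dp.v0 Q hQ _ _ (fun v hv => hcz 0 v hv)
  have hca : PowerSeries.constantCoeff a =
      algebraMap (H13.TR k Ξ) (F0 k Ξ) (aeval (H13.xT dp) (pderiv dp.v0 P)) := hev _ hP.1 hkA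
  have hcb : PowerSeries.constantCoeff b =
      algebraMap (H13.TR k Ξ) (F0 k Ξ) (aeval (H13.xT dp) (kill dp.v0 P)) :=
    hev _ (P1m_kill_kill _ _) hkB
  -- the unit
  have hu : IsUnit (aeval (H13.xT dp) (pderiv dp.v0 P)) :=
    H13.isUnit_of_const _ _ dp.hv0 (H13.const_aeval_xT dp _ (fun v => by simp) _)
  obtain ⟨w, hw⟩ := hu.exists_right_inv
  have hinj := IsFractionRing.injective (H13.TR k Ξ) (F0 k Ξ)
  have hφw : algebraMap (H13.TR k Ξ) (F0 k Ξ) (aeval (H13.xT dp) (pderiv dp.v0 P)) *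
      algebraMap (H13.TR k Ξ) (F0 k Ξ) w = 1 := by
    rw [← map_mul, hw, map_one]
  have hane : PowerSeries.constantCoeff a ≠ 0 := by
    rw [hca]
    exact left_ne_zero_of_mul_eq_one hφw
  have hak : a * a⁻¹ = 1 := PowerSeries.mul_inv_cancel a hane
  have hck : PowerSeries.constantCoeff a⁻¹ = algebraMap (H13.TR k Ξ) (F0 k Ξ) w := by
    have h1 := congrArg PowerSeries.constantCoeff hak
    rw [map_mul, map_one, hca] at h1
    have h2 : algebraMap (H13.TR k Ξ) (F0 k Ξ) (aeval (H13.xT dp) (pderiv dp.v0 P)) ≠ 0 :=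
      left_ne_zero_of_mul_eq_one hφw
    exact mul_left_cancel₀ h2 (h1.trans hφw.symm)
  refine ⟨(algebraMap k⟦X⟧ (F0 k Ξ)⟦X⟧ (x0 dp.v0) - b) * a⁻¹, a⁻¹,
    fun v => if v = dp.v0 then - (aeval (H13.xT dp) (kill dp.v0 P)) * w else H13.xT dp v,
    ?_, ?_, ?_, ?_⟩
  · have h1 := congrArg (MvPolynomial.map (PowerSeries.C (R := k))) hP.2
    rw [h1, map_add, map_mul, map_add, map_mul, hza, hzb, MvPolynomial.map_X, aeval_X, zh,
      if_pos rfl]
    linear_combination (algebraMap k⟦X⟧ (F0 k Ξ)⟦X⟧ (x0 dp.v0) - b) * hak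
  · rw [hza, hak]
  · intro v
    by_cases hv : v = dp.v0
    · subst hv
      rw [zh, if_pos rfl]
      simp only [if_pos]
      rw [map_mul, map_sub, hc0, hT, map_zero, zero_sub, hcb, hck, map_mul, map_neg]
    · rw [hcz _ v hv]
      simp only [if_neg hv]
  · intro v
    by_cases hv : v = dp.v0
    · subst hv
      simp only [if_pos]
      have h1 := congrArg (aeval (H13.xT dp)) hP.2
      rw [map_add, map_mul, aeval_X] at h1
      obtain ⟨r, hr⟩ := H13.xT_val dp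
      refine ⟨-(r * w), ?_⟩
      linear_combination (H13.xT dp dp.v0) * hw + w * h1 - w * hr
    · simp only [if_neg hv, sub_self]
      exact dvd_zero _

end Pool.Agent.Work.MP_499dc6_lc.FM
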