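import Mathlib
import Pool.Agent.Work.MP_499dc6_lc.FM.Stmts

/-!
Item P3 of block FM: the gradient of `F + ε R` at the point.
-/

namespace Pool.Agent.Work.MP_499dc6_lc.FM

open MvPolynomial
open scoped PowerSeries
open Pool.Agent.Work.MP_499dc6_lc.SN
open Pool.Agent.Work.MP_499dc6_lc.FC

theorem fm_P3 : FM.StP3 := by
  intro F U _ c0 e T hv a u1 u2 dF dR dP g hhv hu1 hT hu2 hF
  have i1 : u1 * u1⁻¹ = 1 := PowerSeries.mul_inv_cancel u1 hu1
  have i2 : u2 * u2⁻¹ = 1 := PowerSeries.mul_inv_cancel u2 hu2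
  have i3 : u2 ^ e * (u2⁻¹) ^ e = 1 := by rw [← mul_pow, i2, one_pow]
  have n1 : u1 ≠ 0 := by
    rintro rfl
    simp at hu1
  have n2 : u2 ≠ 0 := by
    rintro rfl
    simp at hu2
  refine ⟨T ^ e * hv, fun u => dP u + PowerSeries.X * (u1⁻¹ * u2 * g u) +
    PowerSeries.X * ((u2⁻¹) ^ e * u1⁻¹ * a * dR u), ?_, ?_, ?_⟩
  · rw [hhv, hT]
    exact mul_ne_zero (pow_ne_zero _ (mul_ne_zero (pow_ne_zero _ PowerSeries.X_ne_zero) n2))
      (mul_ne_zero (pow_ne_zero _ PowerSeries.X_ne_zero) n1)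
  · intro u
    have e1 : T ^ e * hv * (PowerSeries.X * (u1⁻¹ * u2 * g u)) = T ^ e * (T * g u) := by
      calc T ^ e * hv * (PowerSeries.X * (u1⁻¹ * u2 * g u))
          = T ^ e * ((PowerSeries.X ^ (c0 + 1) * u2) * g u) * (u1 * u1⁻¹) := by
            rw [hhv]; ring
        _ = T ^ e * (T * g u) := by rw [i1, mul_one, ← hT]
    have e2 : T ^ e * hv * (PowerSeries.X * ((u2⁻¹) ^ e * u1⁻¹ * a * dR u)) =
        a * (PowerSeries.X ^ ((c0 + 1) * e + c0 + 1) * dR u) := by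
      calc T ^ e * hv * (PowerSeries.X * ((u2⁻¹) ^ e * u1⁻¹ * a * dR u))
          = a * (PowerSeries.X ^ ((c0 + 1) * e + c0 + 1) * dR u) * (u2 ^ e * (u2⁻¹) ^ e) *
            (u1 * u1⁻¹) := by
            rw [hhv, hT]; ring
        _ = _ := by rw [i1, i3, mul_one, mul_one]
    rw [mul_add, hF u]
    linear_combination -e1 - e2
  · intro u
    simp

end Pool.Agent.Work.MP_499dc6_lc.FM
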