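import Pool.Agent.Work.MP_499dc6_lc.FM.Main
import Pool.Agent.Work.MP_499dc6_lc.FC.All
import Pool.Agent.Work.MP_499dc6_lc.FM.I_LP
import Pool.Agent.Work.MP_499dc6_lc.FM.I_LK
import Pool.Agent.Work.MP_499dc6_lc.FM.I_LM
import Pool.Agent.Work.MP_499dc6_lc.FM.I_LT
import Pool.Agent.Work.MP_499dc6_lc.FM.I_L1
import Pool.Agent.Work.MP_499dc6_lc.FM.I_L2
import Pool.Agent.Work.MP_499dc6_lc.FM.I_L3
import Pool.Agent.Work.MP_499dc6_lc.FM.I_L4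
import Pool.Agent.Work.MP_499dc6_lc.FM.I_B1
import Pool.Agent.Work.MP_499dc6_lc.FM.I_B2
import Pool.Agent.Work.MP_499dc6_lc.FM.I_S2
import Pool.Agent.Work.MP_499dc6_lc.FM.I_P1
import Pool.Agent.Work.MP_499dc6_lc.FM.I_P3
import Pool.Agent.Work.MP_499dc6_lc.FM.I_E3
import Pool.Agent.Work.MP_499dc6_lc.FM.I_E4
import Pool.Agent.Work.MP_499dc6_lc.FM.I_E5
import Pool.Agent.Work.MP_499dc6_lc.FM.I_F1
import Pool.Agent.Work.MP_499dc6_lc.FM.I_F2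
import Pool.Agent.Work.MP_499dc6_lc.FM.I_WB
import Pool.Agent.Work.MP_499dc6_lc.FM.I_WL
import Pool.Agent.Work.MP_499dc6_lc.FM.I_N8

/-!
THEOREM FM: all items put together.
-/

open MvPolynomial
open scoped PowerSeries

namespace Pool.Agent.Work.MP_499dc6_lc.FM

open Pool.Agent.Work.MP_499dc6_lc.SN
open Pool.Agent.Work.MP_499dc6_lc.FC

theorem fm_all (k : Type) [Field k]
    [CharZero k] (m t S r : ℕ) (hm : 1 ≤ m) (ht : 1 ≤ t)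
    (F : MvPolynomial (Fin m × Fin m) k) (hF : F ≠ 0)
    (hdvd : (Matrix.of fun i j => X (i, j)).permanent ∣ F) (lev : Fin S → ℕ)
    (Q : Fin S → MvPolynomial ((Fin m × Fin m) ⊕ Fin S) (LaurentSeries k)) (hQ : Lev t lev Q)
    (f : Fin S → MvPolynomial (Fin m × Fin m) (LaurentSeries k))
    (hf : ∀ j, f j = ev X f (Q j)) (s : Fin r → Fin S) (R : MvPolynomial (Fin m × Fin m) k⟦X⟧)
    (hs : IsAlgebraic (Algebra.adjoin (LaurentSeries k) (Set.range fun i => f (s i)))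
      (MvPolynomial.map (algebraMap k⟦X⟧ (LaurentSeries k))
        (MvPolynomial.map PowerSeries.C F + C PowerSeries.X * R))) :
    (m : ℝ) ^ (1 - 28 * (r : ℝ) / (m : ℝ) ^ 2) ≤
      250 * (1 + 160 * (S + 1) / (t * (m : ℝ) ^ 2)) ^ t := by
  have hW2 : StW2 := sn_W2 sn_W1
  have hW3 : StW3 := sn_W3 sn_W1 hW2
  have hW4 : StW4 := sn_W4 sn_W1 hW2 hW3
  have hEX : StEX := sn_EX sn_CG
  have hGI : StGI := sn_GI sn_CR (sn_UQ sn_CG)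
  have hPH : StPH := sn_PH hEX sn_AD sn_NZ hGI
  have hN6 : StN6 := sn_N6 sn_N1 sn_N2 sn_N3 sn_N4 sn_N5
  have hL3 : SN.StL3 := sn_L3 sn_L1 sn_L2
  have hWB : WBc := fm_WB sn_NB sn_W1 hW2 hW4 fm_F1 fm_F2 sn_G1 sn_G2 sn_G3 sn_G5 fc_G6 sn_G7
  have hWL : WLc := fm_WL fc_D1 hL3 hN6 sn_N7 hWB
  have hE6 : E6c := by
    intro k V Ξ Τ I _ _ _ _ _ _ _ _ P dp hP F hF hPF
    obtain ⟨N, hN, h⟩ := loc fm_LK fm_LM fm_L1 fm_L2 fm_L3 fm_L4 fm_B1 fm_B2 fc_B2 fm_P1 fm_P3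
      k V Ξ Τ I P dp hP F hF hPF
    refine ⟨N, hN, fun S r Q hQ f hf s R hrel => ?_⟩
    obtain ⟨h', a, hne, hha⟩ := hrel
    exact fm_E6 hPH fc_D2 fc_D3 fc_D4 fc_C1 fc_C2 fc_C3 fc_C4 fc_C5 fc_E1 fc_E2 fm_E3 fm_E4 fm_E5
      fm_LK fm_LM fm_LT k V Ξ Τ I P dp hP S r Q hQ f hf s _ h' a hha (h R h' hne)
  exact fm_main hWL hE6 fc_A1 fc_A2 sn_C1 fc_A3 fc_A4 fm_S2 sn_L0 fm_LP fm_N8 fc_PD k m t S r hm ht
    F hF hdvd lev Q hQ f hf s R hs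

end Pool.Agent.Work.MP_499dc6_lc.FM
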