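import Pool.Agent.Work.MP_499dc6_lc.FM.Stmts

/-!
THEOREM FM: the point near the section (assembly).
-/

open MvPolynomial
open scoped PowerSeries

namespace Pool.Agent.Work.MP_499dc6_lc.FM

open Pool.Agent.Work.MP_499dc6_lc.SN
open Pool.Agent.Work.MP_499dc6_lc.FC

theorem exists_order {F : Type} [Field F] (f : F⟦X⟧) (hf : f ≠ 0) :
    ∃ (n : ℕ) (u : F⟦X⟧), f = PowerSeries.X ^ n * u ∧ PowerSeries.constantCoeff u ≠ 0 := by
  obtain ⟨u, hu⟩ := PowerSeries.X_pow_order_dvd (φ := f)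
  have h1 : PowerSeries.coeff f.order.toNat f ≠ 0 := PowerSeries.coeff_order hf
  generalize f.order.toNat = n at hu h1
  refine ⟨n, u, hu, fun h0 => ?_⟩
  obtain ⟨q, hq⟩ := PowerSeries.X_dvd_iff.2 h0
  apply h1
  have h2 : f = PowerSeries.X ^ (n + 1) * q := by
    rw [hu, hq]
    ring
  rw [h2, PowerSeries.coeff_X_pow_mul', if_neg (by omega)]

theorem xh_z {k V Ξ F : Type} [Field k] [Field F] [Algebra k F] [Fintype Ξ] [DecidableEq V]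
    (v0 : V) (x0 : V → k⟦X⟧) (X1 : V → Ξ → k) (θ : Ξ → F) :
    xh x0 (X1z v0 X1) θ v0 = algebraMap k⟦X⟧ F⟦X⟧ (x0 v0) := by
  simp [xh, X1z]

theorem xh_n {k V Ξ F : Type} [Field k] [Field F] [Algebra k F] [Fintype Ξ] [DecidableEq V]
    (v0 : V) (x0 : V → k⟦X⟧) (X1 : V → Ξ → k) (θ : Ξ → F) (v : V) (hv : v ≠ v0) :
    xh x0 (X1z v0 X1) θ v = xh x0 X1 θ v := by
  simp [xh, X1z, hv]

theorem zh_z {k V Ξ F : Type} [Field k] [Field F] [Algebra k F] [Fintype Ξ] [DecidableEq V]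
    (v0 : V) (x0 : V → k⟦X⟧) (X1 : V → Ξ → k) (θ : Ξ → F) (z : F⟦X⟧) :
    zh v0 x0 X1 θ z v0 = z := by
  simp [zh]

theorem zh_n {k V Ξ F : Type} [Field k] [Field F] [Algebra k F] [Fintype Ξ] [DecidableEq V]
    (v0 : V) (x0 : V → k⟦X⟧) (X1 : V → Ξ → k) (θ : Ξ → F) (z : F⟦X⟧) (v : V) (hv : v ≠ v0) :
    zh v0 x0 X1 θ z v = xh x0 X1 θ v := by
  simp [zh, hv]

theorem cc_map {k V F : Type} [Field k] [Field F] [Algebra k F] [Fintype V] [DecidableEq V]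
    (ζ : V → F⟦X⟧) (p : MvPolynomial V k) :
    PowerSeries.constantCoeff (aeval ζ (MvPolynomial.map PowerSeries.C p)) =
      aeval (fun v => PowerSeries.constantCoeff (ζ v)) p := by
  rw [H13.const_aeval, MvPolynomial.map_map]
  have : (PowerSeries.constantCoeff (R := k)).comp PowerSeries.C = RingHom.id k := by
    ext a; simp
  rw [this, MvPolynomial.map_id]

theorem mapC_inj {k V : Type} [Field k] :
    Function.Injective (MvPolynomial.map (PowerSeries.C : k →+* k⟦X⟧) :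
      MvPolynomial V k → MvPolynomial V k⟦X⟧) :=
  MvPolynomial.map_injective _ (PowerSeries.C : k →+* k⟦X⟧).injective

/-- The conclusion of the local analysis. -/
def Loc (k V Ξ Τ I : Type) [Field k] [Fintype V] [DecidableEq V] [Fintype Ξ]
    [Fintype Τ] [Fintype I] (P : MvPolynomial V k) (dp : H97.Deep k V Ξ Τ I P)
    (G H : MvPolynomial V k⟦X⟧) : Prop :=
  ∃ (x0 : V → k⟦X⟧) (z κ : (F0 k Ξ)⟦X⟧) (y : V → H13.TR k Ξ) (a s : (F0 k Ξ)⟦X⟧)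
    (w : V → (F0 k Ξ)⟦X⟧),
    aeval (zh dp.v0 x0 dp.X1 (th0 k) z) (MvPolynomial.map PowerSeries.C P) =
      algebraMap k⟦X⟧ (F0 k Ξ)⟦X⟧ (x0 dp.v0) ∧
    aeval (zh dp.v0 x0 dp.X1 (th0 k) z) (MvPolynomial.map PowerSeries.C (pderiv dp.v0 P)) * κ = 1 ∧
    (∀ v, PowerSeries.constantCoeff (zh dp.v0 x0 dp.X1 (th0 k) z v) =
      algebraMap (H13.TR k Ξ) (F0 k Ξ) (y v)) ∧
    (∀ v, PowerSeries.X ^ (dp.D + 1) ∣ y v - H13.xT dp v) ∧
    aeval (zh dp.v0 x0 dp.X1 (th0 k) z) H ≠ 0 ∧ s ≠ 0 ∧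
    (∀ u, a * aeval (zh dp.v0 x0 dp.X1 (th0 k) z) (pderiv u G) = s * w u) ∧
    ∀ u, PowerSeries.constantCoeff (w u) =
      aeval (fun v => algebraMap (H13.TR k Ξ) (F0 k Ξ) (y v)) (pderiv u P)

theorem loc (hLK : StLK) (hLM : StLM) (hL1 : FM.StL1) (hL2 : FM.StL2) (hL3 : FM.StL3)
    (hL4 : FM.StL4) (hB1 : FM.StB1) (hB2 : FM.StB2) (hFB2 : FC.StB2) (hP1 : StP1) (hP3 : StP3)
    (k V Ξ Τ I : Type) [Field k] [CharZero k] [Fintype V] [DecidableEq V] [Fintype Ξ]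
    [Fintype Τ] [IsEmpty Τ] [Fintype I] (P : MvPolynomial V k) (dp : H97.Deep k V Ξ Τ I P)
    (hP : Lin dp.v0 P) (F : MvPolynomial V k) (hF : F ≠ 0) (hPF : P ∣ F) :
    ∃ N : ℕ, 1 ≤ N ∧ ∀ (R H : MvPolynomial V k⟦X⟧), H ≠ 0 →
      Loc k V Ξ Τ I P dp (MvPolynomial.map PowerSeries.C F + C (PowerSeries.X ^ N) * R) H := by
  classical
  have hA : pderiv dp.v0 P ≠ 0 := by
    intro h0
    apply dp.hv0
    rw [h0, map_zero]
  obtain ⟨N0, e, c, h, hk, hne, hFh⟩ := hL2 hL1 k V dp.v0 P hP hA F hF hPF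
  obtain ⟨h', g, hk', hne', hg⟩ := hL3 k V dp.v0 P F hP.1 hA N0 e c h hk hne hFh
  obtain ⟨y0, hy0⟩ := hB2 k V dp.X0 h' hne'
  set x00 : V → k⟦X⟧ := fun v => PowerSeries.C (dp.X0 v) + PowerSeries.X * PowerSeries.C (y0 v)
    with hx00
  have hv0 := hFB2 k V Ξ x00 (X1z dp.v0 dp.X1) _ hy0
  obtain ⟨c0, u, hu, hu0⟩ := exists_order _ hv0
  refine ⟨(c0 + 1) * e + c0 + 1, by omega, fun R H hH => ?_⟩
  -- the base point
  have hP' : Lin dp.v0 (MvPolynomial.map (PowerSeries.C : k →+* k⟦X⟧) P) :=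
    (hLM k k⟦X⟧ V PowerSeries.C dp.v0).2 P hP
  have hA' : pderiv dp.v0 (MvPolynomial.map (PowerSeries.C : k →+* k⟦X⟧) P) ≠ 0 := by
    rw [pderiv_map]
    intro h0
    exact hA (mapC_inj (h0.trans (map_zero _).symm))
  obtain ⟨d, H', hH', hsub⟩ := hL4 k⟦X⟧ V dp.v0 _ hP' hA' H hH
  obtain ⟨x0, hx0, hev⟩ := hB1 k V (fun v => if v = dp.v0 then PowerSeries.X ^ (c0 + 1) else x00 v)
    (c0 + 2) H' hH'
  have hcc1 : ∀ v, v ≠ dp.v0 → PowerSeries.constantCoeff (x0 v) = dp.X0 v := by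
    intro v hv
    obtain ⟨q, hq⟩ := hx0 v
    rw [if_neg hv] at hq
    have h1 : x0 v = x00 v + PowerSeries.X ^ (c0 + 2) * q := by rw [← hq]; ring
    rw [h1, hx00]
    simp
  obtain ⟨q0, hq0⟩ := hx0 dp.v0
  rw [if_pos rfl] at hq0
  have hq1 : x0 dp.v0 = PowerSeries.X ^ (c0 + 1) * (1 + PowerSeries.X * q0) := by
    have h1 : x0 dp.v0 = PowerSeries.X ^ (c0 + 1) + PowerSeries.X ^ (c0 + 2) * q0 := by
      rw [← hq0]; ring
    rw [h1]; ring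
  have hcc2 : PowerSeries.constantCoeff (x0 dp.v0) = 0 := by
    rw [hq1]; simp
  obtain ⟨z, κ, y, hz1, hz2, hz3, hz4⟩ := hP1 hLK hLM k V Ξ Τ I P dp hP x0 hcc1 hcc2
  set ζ := zh dp.v0 x0 dp.X1 (th0 k) z with hζ
  -- the value of h'
  have hkk : kill dp.v0 (MvPolynomial.map (PowerSeries.C : k →+* k⟦X⟧) h') =
      MvPolynomial.map PowerSeries.C h' := by
    rw [(hLM k k⟦X⟧ V PowerSeries.C dp.v0).1 h', hk']
  have hval : aeval ζ (MvPolynomial.map (PowerSeries.C : k →+* k⟦X⟧) h') =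
      aeval (xh x0 (X1z dp.v0 dp.X1) (th0 k)) (MvPolynomial.map PowerSeries.C h') :=
    hLK k⟦X⟧ V (F0 k Ξ)⟦X⟧ dp.v0 _ hkk _ _ fun v hv => by rw [hζ, zh_n _ _ _ _ _ v hv, xh_n _ _ _ _ v hv]
  have hval0 : aeval (xh x00 (X1z dp.v0 dp.X1) (th0 k))
      (MvPolynomial.map (PowerSeries.C : k →+* k⟦X⟧) h') =
      aeval (xh (fun v => if v = dp.v0 then PowerSeries.X ^ (c0 + 1) else x00 v)
        (X1z dp.v0 dp.X1) (th0 k)) (MvPolynomial.map PowerSeries.C h') :=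
    hLK k⟦X⟧ V (F0 k Ξ)⟦X⟧ dp.v0 _ hkk _ _ fun v hv => by simp [xh, hv]
  have hcong : PowerSeries.X ^ (c0 + 2) ∣ aeval ζ (MvPolynomial.map (PowerSeries.C : k →+* k⟦X⟧) h') -
      aeval (xh x00 (X1z dp.v0 dp.X1) (th0 k)) (MvPolynomial.map PowerSeries.C h') := by
    rw [hval, hval0]
    refine H13.aeval_congr_dvd _ _ _ (fun v => ?_) _
    obtain ⟨q, hq⟩ := hx0 v
    refine ⟨algebraMap k⟦X⟧ (F0 k Ξ)⟦X⟧ q, ?_⟩
    have h1 : xh x0 (X1z dp.v0 dp.X1) (th0 k) v -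
        xh (fun v => if v = dp.v0 then PowerSeries.X ^ (c0 + 1) else x00 v)
          (X1z dp.v0 dp.X1) (th0 k) v = algebraMap k⟦X⟧ (F0 k Ξ)⟦X⟧ (x0 v -
            if v = dp.v0 then PowerSeries.X ^ (c0 + 1) else x00 v) := by
      simp only [xh, map_sub]
      ring
    rw [h1, hq, map_mul, map_pow]
    congr 2
    rw [PowerSeries.algebraMap_apply'', PowerSeries.map_X]
  obtain ⟨q2, hq2⟩ := hcong
  have hhv : aeval ζ (MvPolynomial.map (PowerSeries.C : k →+* k⟦X⟧) h') =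
      PowerSeries.X ^ c0 * (u + PowerSeries.X ^ 2 * q2) := by
    have h1 : aeval ζ (MvPolynomial.map (PowerSeries.C : k →+* k⟦X⟧) h') =
        PowerSeries.X ^ c0 * u + PowerSeries.X ^ (c0 + 2) * q2 := by
      rw [← hq2, ← hu]; ring
    rw [h1]; ring
  have hT : algebraMap k⟦X⟧ (F0 k Ξ)⟦X⟧ (x0 dp.v0) = PowerSeries.X ^ (c0 + 1) *
      (1 + PowerSeries.X * algebraMap k⟦X⟧ (F0 k Ξ)⟦X⟧ q0) := by
    rw [hq1, map_mul, map_pow, map_add, map_one, map_mul]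
    have hX : algebraMap k⟦X⟧ (F0 k Ξ)⟦X⟧ PowerSeries.X = PowerSeries.X := by
      rw [PowerSeries.algebraMap_apply'', PowerSeries.map_X]
    rw [hX]
  obtain ⟨s, w, hs, hw1, hw2⟩ := hP3 (F0 k Ξ) V c0 e (algebraMap k⟦X⟧ (F0 k Ξ)⟦X⟧ (x0 dp.v0))
    (aeval ζ (MvPolynomial.map (PowerSeries.C : k →+* k⟦X⟧) h'))
    (aeval ζ (MvPolynomial.map (PowerSeries.C : k →+* k⟦X⟧) (pderiv dp.v0 P)) ^ (N0 + 1))
    (u + PowerSeries.X ^ 2 * q2) (1 + PowerSeries.X * algebraMap k⟦X⟧ (F0 k Ξ)⟦X⟧ q0)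
    (fun v => aeval ζ (MvPolynomial.map (PowerSeries.C : k →+* k⟦X⟧) (pderiv v F)))
    (fun v => aeval ζ (pderiv v R))
    (fun v => aeval ζ (MvPolynomial.map (PowerSeries.C : k →+* k⟦X⟧) (pderiv v P)))
    (fun v => aeval ζ (MvPolynomial.map (PowerSeries.C : k →+* k⟦X⟧) (g v)))
    hhv (by simpa using hu0) hT (by simp) (by
      intro v
      have h1 := congrArg (fun p => aeval ζ (MvPolynomial.map (PowerSeries.C : k →+* k⟦X⟧) p)) (hg v)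
      simp only [map_mul, map_add, map_pow] at h1
      rw [hz1] at h1
      exact h1)
  refine ⟨x0, z, κ, y,
    aeval ζ (MvPolynomial.map (PowerSeries.C : k →+* k⟦X⟧) (pderiv dp.v0 P)) ^ (N0 + 1), s, w, hz1,
    hz2, hz3, hz4, ?_, hs, fun v => ?_, fun v => ?_⟩
  · intro h0
    have h1 := congrArg (aeval ζ) hsub
    rw [map_mul, h0, mul_zero, MvPolynomial.comp_aeval_apply] at h1
    have h2 : (fun v => aeval ζ (if v = dp.v0 then MvPolynomial.map (PowerSeries.C : k →+* k⟦X⟧) P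
        else X v)) = xh x0 (X1z dp.v0 dp.X1) (th0 k) := by
      funext v
      by_cases hv : v = dp.v0
      · rw [if_pos hv, hz1, hv, xh_z]
      · rw [if_neg hv, aeval_X, hζ, zh_n _ _ _ _ _ v hv, xh_n _ _ _ _ v hv]
    rw [h2] at h1
    exact hFB2 k V Ξ x0 (X1z dp.v0 dp.X1) H' hev h1
  · have h1 := hw1 v
    rw [← h1, map_add, pderiv_C_mul, map_add, map_mul, aeval_C, pderiv_map]
    have h3 : algebraMap k⟦X⟧ (F0 k Ξ)⟦X⟧ (PowerSeries.X ^ ((c0 + 1) * e + c0 + 1)) =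
        PowerSeries.X ^ ((c0 + 1) * e + c0 + 1) := by
      rw [map_pow, PowerSeries.algebraMap_apply'', PowerSeries.map_X]
    rw [h3]
  · rw [hw2 v, cc_map]
    congr 2
    funext v
    exact hz3 v

end Pool.Agent.Work.MP_499dc6_lc.FM
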