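import Pool.Agent.Work.MP_499dc6_lc.FC.Stmts
import Pool.Agent.Work.MP_499dc6_lc.FC.I_E4

/-!
Definitions for THEOREM FM (nonzero multiples of the permanent as algebraic functions of few outputs
of a circuit).
-/

open MvPolynomial
open scoped PowerSeries

namespace Pool.Agent.Work.MP_499dc6_lc.FM

open Pool.Agent.Work.MP_499dc6_lc.SN
open Pool.Agent.Work.MP_499dc6_lc.FC

/-- Setting the variable `v0` to zero. -/
noncomputable def kill {O V : Type} [CommRing O] [DecidableEq V] (v0 : V) :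
    MvPolynomial V O →ₐ[O] MvPolynomial V O := aeval fun v => if v = v0 then 0 else X v

/-- `P` is linear in the variable `v0`: `P = A * X v0 + B` with `A = pderiv v0 P`, `B = kill v0 P`,
which do not contain `v0`. -/
def Lin {O V : Type} [CommRing O] [DecidableEq V] (v0 : V) (P : MvPolynomial V O) : Prop :=
  kill v0 (pderiv v0 P) = pderiv v0 P ∧ P = pderiv v0 P * X v0 + kill v0 P

/-- The directions of the section without the variable `v0`. -/
def X1z {O V Ξ : Type} [CommRing O] [DecidableEq V] (v0 : V) (X1 : V → Ξ → O) (v : V) (i : Ξ) : O :=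
  if v = v0 then 0 else X1 v i

/-- The point of the section with coordinates `θ`, in power series over `F`, with the value `z` of the
variable `v0`. -/
noncomputable def zh {k V Ξ F : Type} [Field k] [Field F] [Algebra k F] [Fintype Ξ] [DecidableEq V]
    (v0 : V) (x0 : V → k⟦X⟧) (X1 : V → Ξ → k) (θ : Ξ → F) (z : F⟦X⟧) (v : V) : F⟦X⟧ :=
  if v = v0 then z else xh x0 X1 θ v

section circuit
variable {O V Ξ : Type} [CommRing O] [Fintype Ξ] [DecidableEq V] {ρ S : ℕ}

/-- The base point of the extended circuit (`v0` and the new variables are zero there). -/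
def mx0 (v0 : V) (x0 : V → O) : V ⊕ Fin ρ → O :=
  Sum.elim (fun v => if v = v0 then 0 else x0 v) fun _ => 0

/-- The directions of the extended section: `v0` is the new coordinate `0`, the new variable `a` is the
new coordinate `a + 1`. -/
def mx1 (v0 : V) (x1 : V → Ξ → O) : V ⊕ Fin ρ → Ξ ⊕ Fin (ρ + 1) → O :=
  Sum.elim
    (fun v => Sum.elim (fun i => if v = v0 then 0 else x1 v i)
      fun b => if v = v0 ∧ b = 0 then 1 else 0)
    fun a => Sum.elim (fun _ => 0) fun b => if b = a.succ then 1 else 0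

/-- The restriction of the polynomial `p` to the section (in the big polynomial ring). -/
noncomputable def qq (v0 : V) (x0 : V → O) (x1 : V → Ξ → O) (p : MvPolynomial V O) :
    MvPolynomial (Var (Ξ ⊕ Fin (ρ + 1)) (S + 1)) O :=
  aeval (fun v => ptx (mx0 v0 x0) (mx1 v0 x1) (Sum.inl v)) p

/-- The polynomials `t_a`: the restriction of `P` minus the constant `T`, and the derivatives in the
directions `u a`, by the adjoint gates, minus `b` times the restriction of `p a`. -/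
noncomputable def tm (v0 : V) (x0 : V → O) (x1 : V → Ξ → O) (Q : Fin S → MvPolynomial (V ⊕ Fin S) O)
    (s : Fin ρ → Fin S) (b : O) (u : Fin ρ → V) (P : MvPolynomial V O) (T : O)
    (p : Fin ρ → MvPolynomial V O) :
    Fin (ρ + 1) → MvPolynomial (Var (Ξ ⊕ Fin (ρ + 1)) (S + 1)) O :=
  Fin.cons (α := fun _ => MvPolynomial (Var (Ξ ⊕ Fin (ρ + 1)) (S + 1)) O)
    (qq v0 x0 x1 P - C T) fun a =>
      Gp (mx0 v0 x0) (mx1 v0 x1) (exQ Q s) (Sum.inl (u a)) - C b * qq v0 x0 x1 (p a)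

/-- The family of products. -/
noncomputable def famM {I : Type} [Fintype I] (v0 : V) (x0 : V → O) (x1 : V → Ξ → O)
    (Q : Fin S → MvPolynomial (V ⊕ Fin S) O) (s : Fin ρ → Fin S) (b : O) (u : Fin ρ → V)
    (P : MvPolynomial V O) (T : O) (p : Fin ρ → MvPolynomial V O) (dir : I → V) (α : Ξ →₀ ℕ)
    (β : I →₀ ℕ) (δ : Fin (ρ + 1) →₀ ℕ) (γ γ' : Fin (S + 1) →₀ ℕ) :
    MvPolynomial (Var (Ξ ⊕ Fin (ρ + 1)) (S + 1)) O :=
  ((∏ i, X (Sum.inl (Sum.inl i)) ^ α i) *
    (∏ i, Gp (mx0 v0 x0) (mx1 v0 x1) (exQ Q s) (Sum.inl (dir i)) ^ β i) *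
      ∏ a, tm v0 x0 x1 Q s b u P T p a ^ δ a) *
    ((∏ j, Hp (mx0 v0 x0) (mx1 v0 x1) (exQ Q s) j ^ γ j) *
      ∏ j, Ha (mx0 v0 x0) (mx1 v0 x1) (exQ Q s) (Fin.last S) j ^ γ' j)

end circuit

/-- The independence of the family. -/
def LIm (k V Ξ Τ I : Type) [Field k] [Fintype V] [DecidableEq V] [Fintype Ξ]
    [Fintype Τ] [Fintype I] (P : MvPolynomial V k) (dp : H97.Deep k V Ξ Τ I P) (S ρ : ℕ)
    (Q : Fin S → MvPolynomial (V ⊕ Fin S) k⟦X⟧) (s' : Fin ρ → Fin S) : Prop :=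
  ∃ (x0 : V → k⟦X⟧) (e : ℕ) (c' : Fin ρ → I),
    ∀ (J : Type) (α : J → Ξ →₀ ℕ) (β : J → I →₀ ℕ),
    LinearIndependent k (fun j => monomial (α j) (1 : k) * ∏ i, dp.q i ^ (β j i)) →
    LinearIndependent k⟦X⟧
      (fun p : (J × (Fin (ρ + 1) →₀ ℕ)) × ((Fin (S + 1) →₀ ℕ) × (Fin (S + 1) →₀ ℕ)) =>
        famM dp.v0 x0 (fun v i => PowerSeries.C (dp.X1 v i)) Q s' (PowerSeries.X ^ e)
          (fun a => dp.dir (c' a)) (MvPolynomial.map PowerSeries.C P) (x0 dp.v0)
          (fun a => MvPolynomial.map PowerSeries.C (pderiv (dp.dir (c' a)) P))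
          dp.dir (α p.1.1) (β p.1.1) p.1.2 p.2.1 p.2.2)

end Pool.Agent.Work.MP_499dc6_lc.FM
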