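import Mathlib
import Pool.Agent.Work.MP_499dc6_lc.FM.Stmts

/-!
Item L4 of block FM: the change of the variable `v0` to the value of `P`.
-/

namespace Pool.Agent.Work.MP_499dc6_lc.FM

open MvPolynomial
open scoped PowerSeries

open Pool.Agent.Work.MP_499dc6_lc.SN
open Pool.Agent.Work.MP_499dc6_lc.FC

theorem L4m_sub_kill {O V : Type} [CommRing O] [DecidableEq V] (v0 : V) (P H : MvPolynomial V O) :
    aeval (fun v => if v = v0 then P else X v) (kill v0 H) = kill v0 H := by
  unfold kill
  rw [← AlgHom.comp_apply]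
  congr 1
  apply MvPolynomial.algHom_ext
  intro v
  rw [AlgHom.comp_apply, aeval_X]
  split_ifs with h
  · rw [map_zero]
  · rw [aeval_X, if_neg h]

theorem L4m_exists {O V : Type} [CommRing O] [DecidableEq V] (v0 : V) (P : MvPolynomial V O)
    (hP : Lin v0 P) (H : MvPolynomial V O) : ∃ (d : ℕ) (H' : MvPolynomial V O),
    aeval (fun v => if v = v0 then P else X v) H' = pderiv v0 P ^ d * H := by
  obtain ⟨hA, hB⟩ := hP
  have hsA : aeval (fun v => if v = v0 then P else X v) (pderiv v0 P) = pderiv v0 P := by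
    rw [← hA]
    exact L4m_sub_kill v0 P _
  have hsB := L4m_sub_kill v0 P P
  induction H using MvPolynomial.induction_on with
  | C a =>
      refine ⟨0, C a, ?_⟩
      rw [pow_zero, one_mul, ← MvPolynomial.algebraMap_eq, AlgHom.commutes]
  | add p q hp hq =>
      obtain ⟨d1, p', h1⟩ := hp
      obtain ⟨d2, q', h2⟩ := hq
      refine ⟨d1 + d2, pderiv v0 P ^ d2 * p' + pderiv v0 P ^ d1 * q', ?_⟩
      rw [map_add, map_mul, map_mul, map_pow, map_pow, hsA, h1, h2]
      ring
  | mul_X p v hp =>
      obtain ⟨d, p', h1⟩ := hp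
      by_cases hv : v = v0
      · refine ⟨d + 1, p' * (X v0 - kill v0 P), ?_⟩
        have hX : aeval (fun v => if v = v0 then P else X v) (X v0 : MvPolynomial V O) = P := by
          rw [aeval_X, if_pos rfl]
        have hsub : P - kill v0 P = pderiv v0 P * X v0 := by
          linear_combination hB
        rw [map_mul, map_sub, h1, hX, hsB, hsub, hv]
        ring
      · refine ⟨d, p' * X v, ?_⟩
        rw [map_mul, h1, aeval_X, if_neg hv]
        ring

theorem fm_L4 : FM.StL4 := by
  intro O V _ _ _ v0 P hP hA H hH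
  obtain ⟨d, H', h⟩ := L4m_exists v0 P hP H
  refine ⟨d, H', ?_, h⟩
  rintro rfl
  rw [map_zero] at h
  exact mul_ne_zero (pow_ne_zero d hA) hH h.symm

end Pool.Agent.Work.MP_499dc6_lc.FM
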