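import Pool.Agent.Work.MP_499dc6_lc.FM.I_E6
import Pool.Agent.Work.MP_499dc6_lc.SN.Main

/-!
THEOREM FM: assembly.
-/

open MvPolynomial
open scoped PowerSeries

namespace Pool.Agent.Work.MP_499dc6_lc.FM

open Pool.Agent.Work.MP_499dc6_lc.SN
open Pool.Agent.Work.MP_499dc6_lc.FC

/-- The conclusion of `WL`. -/
def WLc : Prop := ∀ (k V Ξ Τ I : Type) [Field k] [IsAlgClosed k] [Fintype V] [DecidableEq V]
  [Fintype Ξ] [Fintype Τ] [IsEmpty Τ] [Fintype I] (P : MvPolynomial V k)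
  (dp : H97.Deep k V Ξ Τ I P) (_ : ∀ x : Ξ → k, (∀ i, eval x (dp.q i) = 0) → x = 0)
  (S t r n ρ : ℕ) (_ : 1 ≤ t) (lev : Fin S → ℕ) (Q : Fin S → MvPolynomial (V ⊕ Fin S) k⟦X⟧)
  (_ : Lev t lev Q) (s' : Fin ρ → Fin S) (_ : ρ ≤ r) (_ : LIm k V Ξ Τ I P dp S ρ Q s')
  (_ : P.totalDegree ≤ n) (_ : 1 ≤ Fintype.card Ξ),
  (dp.D : ℝ) ^ Fintype.card Ξ ≤ Real.exp 1 * (Fintype.card Ξ : ℝ) *
    (3 * Real.exp 2 * (1 + 5.5 * (((S + 1 : ℕ) : ℝ) / (Fintype.card Ξ : ℝ)) / t) ^ t) ^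
      Fintype.card Ξ *
    (max (3 * Real.exp 2 * (1 + 5.5 * (((S + 1 : ℕ) : ℝ) / (Fintype.card Ξ : ℝ)) / t) ^ t)
      (n : ℝ)) ^ (r + 1)

/-- The conclusion of the local analysis and of `E6`. -/
def E6c : Prop := ∀ (k V Ξ Τ I : Type) [Field k] [CharZero k] [Fintype V] [DecidableEq V]
  [Fintype Ξ] [Fintype Τ] [IsEmpty Τ] [Fintype I] (P : MvPolynomial V k)
  (dp : H97.Deep k V Ξ Τ I P) (_ : Lin dp.v0 P) (F : MvPolynomial V k) (_ : F ≠ 0) (_ : P ∣ F),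
  ∃ N : ℕ, 1 ≤ N ∧ ∀ (S r : ℕ)
  (Q : Fin S → MvPolynomial (V ⊕ Fin S) k⟦X⟧) (_ : Acyc Q) (f : Fin S → MvPolynomial V k⟦X⟧)
  (_ : ∀ j, f j = ev X f (Q j)) (s : Fin r → Fin S) (R : MvPolynomial V k⟦X⟧)
  (_ : Rel (fun i => f (s i))
    (MvPolynomial.map PowerSeries.C F + C (PowerSeries.X ^ N) * R)),
  ∃ (ρ : ℕ) (s' : Fin ρ → Fin S), ρ ≤ r ∧ LIm k V Ξ Τ I P dp S ρ Q s'

theorem fm_main (hWL : WLc) (hE6 : E6c) (hA1 : FC.StA1) (hA2 : FC.StA2) (hC1 : SN.StC1)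
    (hA3 : FC.StA3) (hA4 : FC.StA4) (hS2 : FM.StS2) (hL0 : SN.StL0) (hLP : StLP)
    (hN8 : FM.StN8) (hPD : FC.StPD) (k : Type) [Field k]
    [CharZero k] (m t S r : ℕ) (hm : 1 ≤ m) (ht : 1 ≤ t)
    (F : MvPolynomial (Fin m × Fin m) k) (hF : F ≠ 0)
    (hdvd : (Matrix.of fun i j => X (i, j)).permanent ∣ F) (lev : Fin S → ℕ)
    (Q : Fin S → MvPolynomial ((Fin m × Fin m) ⊕ Fin S) (LaurentSeries k)) (hQ : Lev t lev Q)
    (f : Fin S → MvPolynomial (Fin m × Fin m) (LaurentSeries k))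
    (hf : ∀ j, f j = ev X f (Q j)) (s : Fin r → Fin S) (R : MvPolynomial (Fin m × Fin m) k⟦X⟧)
    (hs : IsAlgebraic (Algebra.adjoin (LaurentSeries k) (Set.range fun i => f (s i)))
      (MvPolynomial.map (algebraMap k⟦X⟧ (LaurentSeries k))
        (MvPolynomial.map PowerSeries.C F + C PowerSeries.X * R))) :
    (m : ℝ) ^ (1 - 28 * (r : ℝ) / (m : ℝ) ^ 2) ≤
      250 * (1 + 160 * (S + 1) / (t * (m : ℝ) ^ 2)) ^ t := by
  have : CharZero (LaurentSeries k) :=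
    charZero_of_injective_ringHom
      ((algebraMap k⟦X⟧ (LaurentSeries k)).comp (PowerSeries.C (R := k))).injective
  have hrel := hA1 (LaurentSeries k) (Fin m × Fin m) r (fun i => f (s i)) _ hs
  obtain ⟨Q1, f1, d, hQ1, hf1, hd⟩ := hA2 k (Fin m × Fin m) S t lev Q hQ f hf
  have hrel1 := hA3 hC1 k (Fin m × Fin m) r (fun i => f (s i)) (fun i => f1 (s i))
    (fun i => d (s i)) (H13.Pe F R) (fun i => hd (s i)) hrel
  obtain ⟨Q2, f2, R2, hQ2, hf2, hrel2⟩ := hA4 k (AlgebraicClosure k) (Fin m × Fin m)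
    (algebraMap k (AlgebraicClosure k)) S t r lev F Q1 hQ1 f1 hf1 s R hrel1
  have hperm : MvPolynomial.map (algebraMap k (AlgebraicClosure k)) (H97.permP m k) =
      H97.permP m (AlgebraicClosure k) := by
    simp [H97.permP, Matrix.permanent]
  have hF2 : MvPolynomial.map (algebraMap k (AlgebraicClosure k)) F ≠ 0 := by
    intro h0
    exact hF (MvPolynomial.map_injective _ (algebraMap k (AlgebraicClosure k)).injective
      (h0.trans (map_zero _).symm))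
  have hdvd2 : H97.permP m (AlgebraicClosure k) ∣
      MvPolynomial.map (algebraMap k (AlgebraicClosure k)) F := by
    rw [← hperm]
    exact map_dvd _ hdvd
  have hc : CharZero (AlgebraicClosure k) :=
    charZero_of_injective_algebraMap (FaithfulSMul.algebraMap_injective k (AlgebraicClosure k))
  obtain ⟨a, ha⟩ : ∃ a, a = (m - 1) / 9 := ⟨_, rfl⟩
  refine hN8 m a S t r hm ht (by omega) (by omega) fun ha1 => ?_
  obtain ⟨n, hn⟩ : ∃ n, n + 1 = 3 * a := ⟨3 * a - 1, by omega⟩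
  obtain ⟨dp, hD, hz⟩ := Pool.Agent.Work.MP_104cea_lc.SH.sn_deep (AlgebraicClosure k) a n m
    (by omega) hn (by omega)
  obtain ⟨N, hN, hE⟩ := hE6 (AlgebraicClosure k) (Fin m × Fin m) _ _ _
    (H97.permP m (AlgebraicClosure k)) dp (hLP (AlgebraicClosure k) m dp.v0) _ hF2 hdvd2
  obtain ⟨Q3, f3, R3, hQ3, hf3, hrel3⟩ := hS2 (AlgebraicClosure k) (Fin m × Fin m) N hN S t r lev
    _ Q2 hQ2 f2 hf2 s R2 hrel2
  obtain ⟨ρ, s', hρ, hLI⟩ := hE S r Q3 (hL0 (AlgebraicClosure k)⟦X⟧ (Fin m × Fin m) S t lev Q3 hQ3)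
    f3 hf3 s R3 hrel3
  have hcard : Fintype.card (Fin (n + 1) × Fin (a + 1)) = 3 * a * (a + 1) := by
    rw [Fintype.card_prod, Fintype.card_fin, Fintype.card_fin, hn]
  have hpos : 1 ≤ 3 * a * (a + 1) := Nat.mul_pos (by omega) (by omega)
  have h3 := hWL (AlgebraicClosure k) (Fin m × Fin m) (Fin (n + 1) × Fin (a + 1)) Empty
    (Fin (2 * a) × Fin (n + 1)) (H97.permP m (AlgebraicClosure k)) dp hz S t r m ρ ht lev Q3 hQ3
    s' hρ hLI (hPD (AlgebraicClosure k) m) (by rw [hcard]; exact hpos)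
  rw [hcard, hD] at h3
  exact h3

end Pool.Agent.Work.MP_499dc6_lc.FM
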